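import Mathlib

/-!
The third level of the alternation hierarchy of the modal mu-calculus does not have the Craig
interpolation property.
-/

universe u

namespace Pool.Agent.Results.MP_3aa27d_lc.LevelThreeFails

/-- Formulas of the modal mu-calculus in negation normal form, with named variables. -/
inductive Fm : Type
  | tt : Fm
  | ff : Fm
  | lit (p : ℕ) : Fm
  | nlit (p : ℕ) : Fm
  | var (x : ℕ) : Fm
  | conj (a b : Fm) : Fm
  | disj (a b : Fm) : Fm
  | dia (a : Fm) : Fm
  | box (a : Fm) : Fm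
  | mu (x : ℕ) (a : Fm) : Fm
  | nu (x : ℕ) (a : Fm) : Fm

/-- Kripke models. -/
structure Model where
  W : Type u
  rel : W → W → Prop
  val : ℕ → W → Prop

/-- The set of points of a model at which a formula is true, given an interpretation of the
fixpoint variables. -/
def Fm.sem (M : Model.{u}) : Fm → (ℕ → Set M.W) → Set M.W
  | .tt, _ => Set.univ
  | .ff, _ => ∅
  | .lit p, _ => {w | M.val p w}
  | .nlit p, _ => {w | ¬ M.val p w}
  | .var x, V => V x
  | .conj a b, V => a.sem M V ∩ b.sem M V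
  | .disj a b, V => a.sem M V ∪ b.sem M V
  | .dia a, V => {w | ∃ v, M.rel w v ∧ v ∈ a.sem M V}
  | .box a, V => {w | ∀ v, M.rel w v → v ∈ a.sem M V}
  | .mu x a, V => {w | ∀ U : Set M.W, a.sem M (Function.update V x U) ⊆ U → w ∈ U}
  | .nu x a, V => {w | ∃ U : Set M.W, U ⊆ a.sem M (Function.update V x U) ∧ w ∈ U}

/-- The implication from `a` to `b` is valid. -/
def ValidImp (a b : Fm) : Prop :=
  ∀ (M : Model.{u}) (V : ℕ → Set M.W), a.sem M V ⊆ b.sem M V

/-- Free variables. -/
def Fm.fv : Fm → Set ℕ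
  | .tt => ∅
  | .ff => ∅
  | .lit _ => ∅
  | .nlit _ => ∅
  | .var x => {x}
  | .conj a b => a.fv ∪ b.fv
  | .disj a b => a.fv ∪ b.fv
  | .dia a => a.fv
  | .box a => a.fv
  | .mu x a => a.fv \ {x}
  | .nu x a => a.fv \ {x}

/-- Propositional letters of a formula. -/
def Fm.letters : Fm → Set ℕ
  | .tt => ∅
  | .ff => ∅
  | .lit p => {p}
  | .nlit p => {p}
  | .var _ => ∅
  | .conj a b => a.letters ∪ b.letters
  | .disj a b => a.letters ∪ b.letters
  | .dia a => a.letters
  | .box a => a.letters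
  | .mu _ a => a.letters
  | .nu _ a => a.letters

/-- Fixpoint-free formulas. -/
def Fm.FixFree : Fm → Prop
  | .tt => True
  | .ff => True
  | .lit _ => True
  | .nlit _ => True
  | .var _ => True
  | .conj a b => a.FixFree ∧ b.FixFree
  | .disj a b => a.FixFree ∧ b.FixFree
  | .dia a => a.FixFree
  | .box a => a.FixFree
  | .mu _ _ => False
  | .nu _ _ => False

/-- `a.subst x c` is `a` with the free occurrences of `x` replaced by `c`. -/
def Fm.subst : Fm → ℕ → Fm → Fm
  | .tt, _, _ => .tt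
  | .ff, _, _ => .ff
  | .lit p, _, _ => .lit p
  | .nlit p, _, _ => .nlit p
  | .var y, x, c => if y = x then c else .var y
  | .conj a b, x, c => .conj (a.subst x c) (b.subst x c)
  | .disj a b, x, c => .disj (a.subst x c) (b.subst x c)
  | .dia a, x, c => .dia (a.subst x c)
  | .box a, x, c => .box (a.subst x c)
  | .mu y a, x, c => if y = x then .mu y a else .mu y (a.subst x c)
  | .nu y a, x, c => if y = x then .nu y a else .nu y (a.subst x c)

/-- `a.NoCapture x c`: no free variable of `c` is captured when the free occurrences of `x` in `a`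
are replaced by `c`. -/
def Fm.NoCapture : Fm → ℕ → Fm → Prop
  | .tt, _, _ => True
  | .ff, _, _ => True
  | .lit _, _, _ => True
  | .nlit _, _, _ => True
  | .var _, _, _ => True
  | .conj a b, x, c => a.NoCapture x c ∧ b.NoCapture x c
  | .disj a b, x, c => a.NoCapture x c ∧ b.NoCapture x c
  | .dia a, x, c => a.NoCapture x c
  | .box a, x, c => a.NoCapture x c
  | .mu y a, x, c => y = x ∨ x ∉ a.fv ∨ (y ∉ c.fv ∧ a.NoCapture x c)
  | .nu y a, x, c => y = x ∨ x ∉ a.fv ∨ (y ∉ c.fv ∧ a.NoCapture x c)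

/-- The alternation hierarchy: `Hier true n` is the class `Σ_n` and `Hier false n` is `Π_n`. -/
inductive Hier : Bool → ℕ → Fm → Prop
  | base (b : Bool) (a : Fm) : a.FixFree → Hier b 0 a
  | up (b b' : Bool) (n : ℕ) (a : Fm) : Hier b' n a → Hier b (n + 1) a
  | conj (b : Bool) (n : ℕ) (a c : Fm) :
      Hier b (n + 1) a → Hier b (n + 1) c → Hier b (n + 1) (.conj a c)
  | disj (b : Bool) (n : ℕ) (a c : Fm) :
      Hier b (n + 1) a → Hier b (n + 1) c → Hier b (n + 1) (.disj a c)
  | dia (b : Bool) (n : ℕ) (a : Fm) : Hier b (n + 1) a → Hier b (n + 1) (.dia a)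
  | box (b : Bool) (n : ℕ) (a : Fm) : Hier b (n + 1) a → Hier b (n + 1) (.box a)
  | mu (n : ℕ) (x : ℕ) (a : Fm) : Hier true (n + 1) a → Hier true (n + 1) (.mu x a)
  | nu (n : ℕ) (x : ℕ) (a : Fm) : Hier false (n + 1) a → Hier false (n + 1) (.nu x a)
  | subst (b : Bool) (n : ℕ) (x : ℕ) (a c : Fm) :
      Hier b (n + 1) a → Hier b (n + 1) c → a.NoCapture x c → Hier b (n + 1) (a.subst x c)

/-! ### Formulas with ranked binders -/

/-- Formulas whose binders carry a rank; odd ranks are least fixpoints, even ranks greatest. -/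
inductive AF : Type
  | tt : AF
  | ff : AF
  | lit (p : ℕ) : AF
  | nlit (p : ℕ) : AF
  | var (x : ℕ) : AF
  | conj (a b : AF) : AF
  | disj (a b : AF) : AF
  | dia (a : AF) : AF
  | box (a : AF) : AF
  | fix (k x : ℕ) (a : AF) : AF

/-- Forget the ranks. -/
def AF.erase : AF → Fm
  | .tt => .tt
  | .ff => .ff
  | .lit p => .lit p
  | .nlit p => .nlit p
  | .var y => .var y
  | .conj a b => .conj a.erase b.erase
  | .disj a b => .disj a.erase b.erase
  | .dia a => .dia a.erase
  | .box a => .box a.erase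
  | .fix k x a => if k % 2 = 1 then .mu x a.erase else .nu x a.erase

def AF.fv : AF → Set ℕ
  | .tt => ∅
  | .ff => ∅
  | .lit _ => ∅
  | .nlit _ => ∅
  | .var x => {x}
  | .conj a b => a.fv ∪ b.fv
  | .disj a b => a.fv ∪ b.fv
  | .dia a => a.fv
  | .box a => a.fv
  | .fix _ x a => a.fv \ {x}

theorem AF.fv_erase (a : AF) : a.erase.fv = a.fv := by
  induction a with
  | fix k x a ih =>
    simp only [AF.erase, AF.fv]
    split_ifs <;> simp [Fm.fv, ih]
  | _ => simp_all [AF.erase, Fm.fv, AF.fv]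

def AF.subst : AF → ℕ → AF → AF
  | .tt, _, _ => .tt
  | .ff, _, _ => .ff
  | .lit p, _, _ => .lit p
  | .nlit p, _, _ => .nlit p
  | .var y, x, c => if y = x then c else .var y
  | .conj a b, x, c => .conj (a.subst x c) (b.subst x c)
  | .disj a b, x, c => .disj (a.subst x c) (b.subst x c)
  | .dia a, x, c => .dia (a.subst x c)
  | .box a, x, c => .box (a.subst x c)
  | .fix k y a, x, c => if y = x then .fix k y a else .fix k y (a.subst x c)

theorem AF.erase_subst (x : ℕ) (c a : AF) :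
    (a.subst x c).erase = a.erase.subst x c.erase := by
  induction a with
  | var y => simp only [AF.subst, AF.erase, Fm.subst]; split_ifs <;> rfl
  | fix k y a ih =>
    simp only [AF.subst, AF.erase]
    by_cases hy : y = x
    · by_cases hk : k % 2 = 1 <;> simp [hy, hk, AF.erase, Fm.subst]
    · by_cases hk : k % 2 = 1 <;> simp [hy, hk, AF.erase, Fm.subst, ih]
  | _ => simp_all [AF.subst, AF.erase, Fm.subst]

theorem AF.fv_subst (x : ℕ) (c a : AF) :
    ∀ y ∈ (a.subst x c).fv, (y ∈ a.fv ∧ y ≠ x) ∨ (x ∈ a.fv ∧ y ∈ c.fv) := by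
  induction a with
  | tt => intro y hy; simp [AF.subst, AF.fv] at hy
  | ff => intro y hy; simp [AF.subst, AF.fv] at hy
  | lit p => intro y hy; simp [AF.subst, AF.fv] at hy
  | nlit p => intro y hy; simp [AF.subst, AF.fv] at hy
  | var z =>
    intro y hy
    simp only [AF.subst] at hy
    split_ifs at hy with h
    · right; exact ⟨by simp [AF.fv, h], hy⟩
    · left
      have : y = z := by simpa [AF.fv] using hy
      exact ⟨hy, by rw [this]; exact h⟩
  | conj a b iha ihb =>
    intro y hy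
    simp only [AF.subst, AF.fv] at hy ⊢
    rcases hy with hy | hy
    · rcases iha y hy with h | h
      · exact Or.inl ⟨Or.inl h.1, h.2⟩
      · exact Or.inr ⟨Or.inl h.1, h.2⟩
    · rcases ihb y hy with h | h
      · exact Or.inl ⟨Or.inr h.1, h.2⟩
      · exact Or.inr ⟨Or.inr h.1, h.2⟩
  | disj a b iha ihb =>
    intro y hy
    simp only [AF.subst, AF.fv] at hy ⊢
    rcases hy with hy | hy
    · rcases iha y hy with h | h
      · exact Or.inl ⟨Or.inl h.1, h.2⟩
      · exact Or.inr ⟨Or.inl h.1, h.2⟩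
    · rcases ihb y hy with h | h
      · exact Or.inl ⟨Or.inr h.1, h.2⟩
      · exact Or.inr ⟨Or.inr h.1, h.2⟩
  | dia a ih => exact ih
  | box a ih => exact ih
  | fix k z a ih =>
    intro y hy
    simp only [AF.subst] at hy
    split_ifs at hy with h
    · left
      refine ⟨hy, ?_⟩
      have := hy.2
      intro h2
      exact this (by simp [h2, h])
    · rcases ih y hy.1 with h1 | h1
      · exact Or.inl ⟨⟨h1.1, hy.2⟩, h1.2⟩
      · exact Or.inr ⟨⟨h1.1, fun h2 => h h2.symm⟩, h1.2⟩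

/-- The ranks are at most `h`, and a binder never has a larger rank than a variable that is free
in its scope; `ρ` gives the ranks of the variables. -/
def OK (h : ℕ) : (ℕ → ℕ) → AF → Prop
  | _, .tt => True
  | _, .ff => True
  | _, .lit _ => True
  | _, .nlit _ => True
  | _, .var _ => True
  | ρ, .conj a b => OK h ρ a ∧ OK h ρ b
  | ρ, .disj a b => OK h ρ a ∧ OK h ρ b
  | ρ, .dia a => OK h ρ a
  | ρ, .box a => OK h ρ a
  | ρ, .fix k x a => 1 ≤ k ∧ k ≤ h ∧ (∀ y ∈ a.fv, y ≠ x → k ≤ ρ y) ∧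
      OK h (Function.update ρ x k) a

theorem OK.mono {h h' : ℕ} (hh : h ≤ h') : ∀ {a : AF} {ρ ρ' : ℕ → ℕ},
    (∀ y ∈ a.fv, ρ y ≤ ρ' y) → OK h ρ a → OK h' ρ' a
  | .tt, _, _, _, _ => trivial
  | .ff, _, _, _, _ => trivial
  | .lit _, _, _, _, _ => trivial
  | .nlit _, _, _, _, _ => trivial
  | .var _, _, _, _, _ => trivial
  | .conj _ _, _, _, h1, h2 => ⟨OK.mono hh (fun y hy => h1 y (Or.inl hy)) h2.1,
      OK.mono hh (fun y hy => h1 y (Or.inr hy)) h2.2⟩
  | .disj _ _, _, _, h1, h2 => ⟨OK.mono hh (fun y hy => h1 y (Or.inl hy)) h2.1,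
      OK.mono hh (fun y hy => h1 y (Or.inr hy)) h2.2⟩
  | .dia a, _, _, h1, h2 => OK.mono (a := a) hh h1 h2
  | .box a, _, _, h1, h2 => OK.mono (a := a) hh h1 h2
  | .fix k x a, ρ, ρ', h1, h2 => by
    refine ⟨h2.1, h2.2.1.trans hh, fun y hy hyx => (h2.2.2.1 y hy hyx).trans (h1 y ⟨hy, hyx⟩),
      OK.mono (a := a) hh (fun y hy => ?_) h2.2.2.2⟩
    by_cases hyx : y = x
    · subst hyx; simp
    · simp only [Function.update_of_ne hyx]
      exact h1 y ⟨hy, hyx⟩

theorem OK.subst {h x : ℕ} {c : AF}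
    (hc : ∀ ρ : ℕ → ℕ, (∀ y ∈ c.fv, h ≤ ρ y) → OK h ρ c) : ∀ {a : AF} {ρ : ℕ → ℕ},
    OK h ρ a → a.erase.NoCapture x c.erase → (x ∈ a.fv → ∀ y ∈ c.fv, h ≤ ρ y) →
    OK h ρ (a.subst x c)
  | .tt, _, _, _, _ => trivial
  | .ff, _, _, _, _ => trivial
  | .lit _, _, _, _, _ => trivial
  | .nlit _, _, _, _, _ => trivial
  | .var y, ρ, _, _, h3 => by
    simp only [AF.subst]
    split_ifs with hy
    · exact hc ρ (h3 (by simp [AF.fv, hy]))
    · trivial
  | .conj a b, ρ, h1, h2, h3 => ⟨OK.subst hc h1.1 h2.1 (fun hx => h3 (Or.inl hx)),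
      OK.subst hc h1.2 h2.2 (fun hx => h3 (Or.inr hx))⟩
  | .disj a b, ρ, h1, h2, h3 => ⟨OK.subst hc h1.1 h2.1 (fun hx => h3 (Or.inl hx)),
      OK.subst hc h1.2 h2.2 (fun hx => h3 (Or.inr hx))⟩
  | .dia a, ρ, h1, h2, h3 => OK.subst (a := a) hc h1 h2 h3
  | .box a, ρ, h1, h2, h3 => OK.subst (a := a) hc h1 h2 h3
  | .fix k y a, ρ, h1, h2, h3 => by
    simp only [AF.subst]
    split_ifs with hy
    · exact h1
    · have h2' : x ∉ a.fv ∨ (y ∉ c.fv ∧ a.erase.NoCapture x c.erase) := by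
        simp only [AF.erase] at h2
        split_ifs at h2 with hk
        · rcases h2 with h | h
          · exact absurd h hy
          · simpa only [AF.fv_erase] using h
        · rcases h2 with h | h
          · exact absurd h hy
          · simpa only [AF.fv_erase] using h
      by_cases hx : x ∈ a.fv
      · have h2'' := h2'.resolve_left (not_not.2 hx)
        have h3' := h3 ⟨hx, fun h => hy h.symm⟩
        refine ⟨h1.1, h1.2.1, fun z hz hzy => ?_, OK.subst (a := a) hc h1.2.2.2 h2''.2 ?_⟩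
        · rcases AF.fv_subst x c a z hz with h | h
          · exact h1.2.2.1 z h.1 hzy
          · exact h1.2.1.trans (h3' z h.2)
        · intro _ z hz
          have hzy : z ≠ y := fun h => h2''.1 (h ▸ hz)
          rw [Function.update_of_ne hzy]
          exact h3' z hz
      · refine ⟨h1.1, h1.2.1, fun z hz hzy => ?_, ?_⟩
        · rcases AF.fv_subst x c a z hz with h | h
          · exact h1.2.2.1 z h.1 hzy
          · exact absurd h.1 hx
        · have : ∀ b : AF, x ∉ b.fv → b.subst x c = b := by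
            intro b
            induction b with
            | var z =>
              intro hb
              simp only [AF.subst]
              rw [if_neg]
              intro h; exact hb (by simp [AF.fv, h])
            | fix k z b ih =>
              intro hb
              simp only [AF.subst]
              split_ifs with hz
              · rfl
              · rw [ih fun h => hb ⟨h, fun h' => hz h'.symm⟩]
            | conj b1 b2 ih1 ih2 =>
              intro hb
              simp only [AF.subst]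
              rw [ih1 fun h => hb (Or.inl h), ih2 fun h => hb (Or.inr h)]
            | disj b1 b2 ih1 ih2 =>
              intro hb
              simp only [AF.subst]
              rw [ih1 fun h => hb (Or.inl h), ih2 fun h => hb (Or.inr h)]
            | dia b ih => intro hb; simp only [AF.subst]; rw [ih hb]
            | box b ih => intro hb; simp only [AF.subst]; rw [ih hb]
            | _ => intro _; rfl
          rw [this a hx]
          exact h1.2.2.2

/-- Every formula of the hierarchy has a ranked version. -/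
theorem exists_ranked {b : Bool} {n : ℕ} {φ : Fm} (hφ : Hier b n φ) :
    ∀ h, n ≤ h → (h % 2 = 1 ↔ b = true) →
      ∃ a : AF, a.erase = φ ∧ ∀ ρ : ℕ → ℕ, (∀ y ∈ a.fv, h ≤ ρ y) → OK h ρ a := by
  induction hφ with
  | base b φ hf =>
    intro h _ _
    induction φ with
    | tt => exact ⟨.tt, rfl, fun _ _ => trivial⟩
    | ff => exact ⟨.ff, rfl, fun _ _ => trivial⟩
    | lit p => exact ⟨.lit p, rfl, fun _ _ => trivial⟩
    | nlit p => exact ⟨.nlit p, rfl, fun _ _ => trivial⟩
    | var p => exact ⟨.var p, rfl, fun _ _ => trivial⟩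
    | conj φ ψ ih1 ih2 =>
      obtain ⟨a, rfl, ha⟩ := ih1 hf.1
      obtain ⟨c, rfl, hc⟩ := ih2 hf.2
      exact ⟨.conj a c, rfl, fun ρ hρ => ⟨ha ρ fun y hy => hρ y (Or.inl hy),
        hc ρ fun y hy => hρ y (Or.inr hy)⟩⟩
    | disj φ ψ ih1 ih2 =>
      obtain ⟨a, rfl, ha⟩ := ih1 hf.1
      obtain ⟨c, rfl, hc⟩ := ih2 hf.2
      exact ⟨.disj a c, rfl, fun ρ hρ => ⟨ha ρ fun y hy => hρ y (Or.inl hy),
        hc ρ fun y hy => hρ y (Or.inr hy)⟩⟩
    | dia φ ih =>
      obtain ⟨a, rfl, ha⟩ := ih hf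
      exact ⟨.dia a, rfl, fun ρ hρ => ha ρ hρ⟩
    | box φ ih =>
      obtain ⟨a, rfl, ha⟩ := ih hf
      exact ⟨.box a, rfl, fun ρ hρ => ha ρ hρ⟩
    | mu x φ _ => exact hf.elim
    | nu x φ _ => exact hf.elim
  | up b b' n φ _ ih =>
    intro h hn hb
    by_cases hbb : b' = b
    · subst hbb
      exact ih h (by omega) hb
    · obtain ⟨a, ha, h1⟩ := ih (h - 1) (by omega) (by
        have h3 : b' = !b := by cases b <;> cases b' <;> simp_all
        subst h3
        cases b <;> simp at hb ⊢ <;> omega)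
      exact ⟨a, ha, fun ρ hρ => (h1 ρ fun y hy => (Nat.sub_le _ _).trans (hρ y hy)).mono
        (Nat.sub_le _ _) (fun _ _ => le_rfl)⟩
  | conj b n φ ψ _ _ ih1 ih2 =>
    intro h hn hb
    obtain ⟨a, rfl, ha⟩ := ih1 h hn hb
    obtain ⟨c, rfl, hc⟩ := ih2 h hn hb
    exact ⟨.conj a c, rfl, fun ρ hρ => ⟨ha ρ fun y hy => hρ y (Or.inl hy),
      hc ρ fun y hy => hρ y (Or.inr hy)⟩⟩
  | disj b n φ ψ _ _ ih1 ih2 =>
    intro h hn hb
    obtain ⟨a, rfl, ha⟩ := ih1 h hn hb
    obtain ⟨c, rfl, hc⟩ := ih2 h hn hb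
    exact ⟨.disj a c, rfl, fun ρ hρ => ⟨ha ρ fun y hy => hρ y (Or.inl hy),
      hc ρ fun y hy => hρ y (Or.inr hy)⟩⟩
  | dia b n φ _ ih =>
    intro h hn hb
    obtain ⟨a, rfl, ha⟩ := ih h hn hb
    exact ⟨.dia a, rfl, fun ρ hρ => ha ρ hρ⟩
  | box b n φ _ ih =>
    intro h hn hb
    obtain ⟨a, rfl, ha⟩ := ih h hn hb
    exact ⟨.box a, rfl, fun ρ hρ => ha ρ hρ⟩
  | mu n x φ _ ih =>
    intro h hn hb
    obtain ⟨a, rfl, ha⟩ := ih h hn hb
    refine ⟨.fix h x a, by simp [AF.erase, hb], fun ρ hρ => ⟨by omega, le_rfl,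
      fun y hy hyx => hρ y ⟨hy, hyx⟩, ha _ fun y hy => ?_⟩⟩
    by_cases hyx : y = x
    · subst hyx; simp
    · rw [Function.update_of_ne hyx]; exact hρ y ⟨hy, hyx⟩
  | nu n x φ _ ih =>
    intro h hn hb
    obtain ⟨a, rfl, ha⟩ := ih h hn hb
    refine ⟨.fix h x a, by simp [AF.erase, hb], fun ρ hρ => ⟨by omega, le_rfl,
      fun y hy hyx => hρ y ⟨hy, hyx⟩, ha _ fun y hy => ?_⟩⟩
    by_cases hyx : y = x
    · subst hyx; simp
    · rw [Function.update_of_ne hyx]; exact hρ y ⟨hy, hyx⟩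
  | subst b n x φ ψ _ _ hcap ih1 ih2 =>
    intro h hn hb
    obtain ⟨a, rfl, ha⟩ := ih1 h hn hb
    obtain ⟨c, rfl, hc⟩ := ih2 h hn hb
    refine ⟨a.subst x c, AF.erase_subst x c a, fun ρ hρ => ?_⟩
    let ρ' : ℕ → ℕ := fun y => max h (ρ y)
    have h1 : OK h ρ' (a.subst x c) :=
      OK.subst hc (ha ρ' fun y _ => le_max_left _ _) hcap (fun _ y _ => le_max_left _ _)
    exact h1.mono le_rfl fun y hy => max_le (hρ y hy) le_rfl

/-! ### Least and greatest fixpoints of monotone maps on sets -/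

section Fix

variable {S : Type}

def lf (F : Set S → Set S) : Set S := {v | ∀ U, F U ⊆ U → v ∈ U}

def gf (F : Set S → Set S) : Set S := {v | ∃ U, U ⊆ F U ∧ v ∈ U}

theorem lf_le {F : Set S → Set S} {U : Set S} (h : F U ⊆ U) : lf F ⊆ U := fun _ hv => hv U h

theorem le_gf {F : Set S → Set S} {U : Set S} (h : U ⊆ F U) : U ⊆ gf F := fun _ hv => ⟨U, h, hv⟩

theorem lf_fix {F : Set S → Set S} (hF : Monotone F) : F (lf F) = lf F := by
  have h1 : F (lf F) ⊆ lf F := fun v hv U hU => hU (hF (lf_le hU) hv)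
  exact Set.Subset.antisymm h1 (lf_le (hF h1))

theorem gf_fix {F : Set S → Set S} (hF : Monotone F) : F (gf F) = gf F := by
  have h1 : gf F ⊆ F (gf F) := by
    rintro v ⟨U, hU, hv⟩
    exact hF (le_gf hU) (hU hv)
  exact Set.Subset.antisymm (le_gf (hF h1)) h1

theorem lf_mono {F F' : Set S → Set S} (h : ∀ U, F U ⊆ F' U) : lf F ⊆ lf F' :=
  fun _ hv U hU => hv U ((h U).trans hU)

theorem gf_mono {F F' : Set S → Set S} (h : ∀ U, F U ⊆ F' U) : gf F ⊆ gf F' := by
  rintro v ⟨U, hU, hv⟩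
  exact ⟨U, hU.trans (h U), hv⟩

/-- Ranks for least fixpoints. -/
theorem exists_rank {F : Set S → Set S} (hF : Monotone F) :
    ∃ rk : S → Ordinal.{0}, (∀ v ∈ lf F, v ∈ F {u | u ∈ lf F ∧ rk u < rk v}) ∧
      ∀ a v, v ∈ F {u | u ∈ lf F ∧ rk u < a} → v ∈ lf F ∧ rk v ≤ a := by
  classical
  let G : Set S →o Set S := ⟨F, hF⟩
  have hG : lf F = G.lfp := by
    apply Set.Subset.antisymm
    · exact lf_le (le_of_eq G.map_lfp)
    · exact G.lfp_le (le_of_eq (lf_fix hF))
  let A : Ordinal.{0} → Set S := OrdinalApprox.lfpApprox G ⊥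
  have hA : ∀ a v, v ∈ A a ↔ ∃ b < a, v ∈ F (A b) := by
    intro a v
    have h1 : A a = ⊥ ⊔ ⨆ b, ⨆ (_ : b < a), G (A b) := by
      show OrdinalApprox.lfpApprox G ⊥ a = _
      rw [OrdinalApprox.lfpApprox]
    rw [h1]
    simp only [bot_sup_eq, Set.iSup_eq_iUnion, Set.mem_iUnion, exists_prop]
    exact Iff.rfl
  have hle : ∀ a, A a ⊆ lf F := by
    intro a
    rw [hG]
    exact OrdinalApprox.lfpApprox_le_of_mem_fixedPoints G G.map_lfp bot_le a
  have hex : ∀ v ∈ lf F, ∃ a, v ∈ F (A a) := by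
    intro v hv
    have h1 := OrdinalApprox.lfpApprox_ord_eq_lfp G
    rw [hG, ← h1] at hv
    obtain ⟨b, _, hb⟩ := (hA _ v).1 hv
    exact ⟨b, hb⟩
  let rk : S → Ordinal.{0} := fun v => sInf {a | v ∈ F (A a)}
  have hrk : ∀ v ∈ lf F, v ∈ F (A (rk v)) := fun v hv => csInf_mem (s := {a | v ∈ F (A a)}) (hex v hv)
  have hrk' : ∀ a v, v ∈ F (A a) → rk v ≤ a := fun a v hv => csInf_le' (s := {a | v ∈ F (A a)}) hv
  have hAeq : ∀ a, A a = {u | u ∈ lf F ∧ rk u < a} := by
    intro a
    ext u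
    constructor
    · intro hu
      obtain ⟨b, hb, hu'⟩ := (hA a u).1 hu
      exact ⟨hle a hu, lt_of_le_of_lt (hrk' b u hu') hb⟩
    · rintro ⟨hu, hlt⟩
      exact (hA a u).2 ⟨rk u, hlt, hrk u hu⟩
  refine ⟨rk, fun v hv => ?_, fun a v hv => ?_⟩
  · rw [← hAeq]; exact hrk v hv
  · rw [← hAeq] at hv
    refine ⟨?_, hrk' a v hv⟩
    rw [← lf_fix hF]
    exact hF (hle a) hv

/-! ### Parity games with three priorities -/

def sel (n : ℕ) (X1 X2 X3 : Set S) : Set S := if n = 3 then X3 else if n = 2 then X2 else X1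

variable (R : S → S → Prop) (pr : S → ℕ) (o : S → Prop)

/-- The points from which the player who moves at the `o`-points can enforce that the next point
lies in the set chosen by the priority of the present point. -/
def stp (X1 X2 X3 : Set S) : Set S :=
  {v | (o v ∧ ∃ u, R v u ∧ u ∈ sel (pr v) X1 X2 X3) ∨
    (¬ o v ∧ ∀ u, R v u → u ∈ sel (pr v) X1 X2 X3)}

theorem sel_mono (n : ℕ) {X1 X2 X3 Y1 Y2 Y3 : Set S} (h1 : X1 ⊆ Y1) (h2 : X2 ⊆ Y2)
    (h3 : X3 ⊆ Y3) : sel n X1 X2 X3 ⊆ sel n Y1 Y2 Y3 := by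
  unfold sel
  split_ifs
  · exact h3
  · exact h2
  · exact h1

theorem stp_mono {X1 X2 X3 Y1 Y2 Y3 : Set S} (h1 : X1 ⊆ Y1) (h2 : X2 ⊆ Y2)
    (h3 : X3 ⊆ Y3) : stp R pr o X1 X2 X3 ⊆ stp R pr o Y1 Y2 Y3 := by
  rintro v (⟨hv, u, hu, hu'⟩ | ⟨hv, hu⟩)
  · exact Or.inl ⟨hv, u, hu, sel_mono _ h1 h2 h3 hu'⟩
  · exact Or.inr ⟨hv, fun u hvu => sel_mono _ h1 h2 h3 (hu u hvu)⟩

/-- The inner two fixpoints of the region of the first player. -/
def Hn (X3 : Set S) : Set S := gf fun X2 => lf fun X1 => stp R pr o X1 X2 X3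

def Wn : Set S := lf (Hn R pr o)

def Gn (K : Set S) : Set S := gf fun X2 => lf fun X1 => stp R pr o X1 (K ∪ X2) (Wn R pr o)

theorem Hn_mono : Monotone (Hn R pr o) := fun _ _ h =>
  gf_mono fun _ => lf_mono fun _ => stp_mono R pr o (Set.Subset.refl _) (Set.Subset.refl _) h

theorem mono2 (K X3 : Set S) : Monotone fun X2 => lf fun X1 => stp R pr o X1 (K ∪ X2) X3 :=
  fun _ _ h => lf_mono fun _ => stp_mono R pr o (Set.Subset.refl _)
    (Set.union_subset_union_right _ h) (Set.Subset.refl _)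

theorem mono1 (X2 X3 : Set S) : Monotone fun X1 => stp R pr o X1 X2 X3 :=
  fun _ _ h => stp_mono R pr o h (Set.Subset.refl _) (Set.Subset.refl _)

theorem Gn_eq' (K : Set S) :
    (lf fun X1 => stp R pr o X1 (K ∪ Gn R pr o K) (Wn R pr o)) = Gn R pr o K :=
  gf_fix (mono2 R pr o K _)

theorem Gn_eq (K : Set S) :
    stp R pr o (Gn R pr o K) (K ∪ Gn R pr o K) (Wn R pr o) = Gn R pr o K := by
  have := lf_fix (mono1 R pr o (K ∪ Gn R pr o K) (Wn R pr o))
  rw [Gn_eq'] at this
  exact this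

theorem Gn_mono {K K' : Set S} (h : K ⊆ K') : Gn R pr o K ⊆ Gn R pr o K' :=
  gf_mono fun _ => lf_mono fun _ => stp_mono R pr o (Set.Subset.refl _)
    (Set.union_subset_union_left _ h) (Set.Subset.refl _)

theorem Gn_empty : Gn R pr o ∅ = Wn R pr o := by
  have : Hn R pr o (Wn R pr o) = Wn R pr o := lf_fix (Hn_mono R pr o)
  unfold Gn
  simp only [Set.empty_union]
  exact this

theorem Gn_acc {K X : Set S} (h : X ⊆ Gn R pr o (K ∪ X)) : X ⊆ Gn R pr o K := by
  refine h.trans (le_gf ?_)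
  have h1 := Gn_eq' R pr o (K ∪ X)
  have h2 : K ∪ X ∪ Gn R pr o (K ∪ X) = K ∪ Gn R pr o (K ∪ X) := by
    rw [Set.union_assoc, Set.union_eq_self_of_subset_left h]
  rw [h2] at h1
  exact le_of_eq h1.symm

theorem Wn_eq : stp R pr o (Wn R pr o) (Wn R pr o) (Wn R pr o) = Wn R pr o := by
  have := Gn_eq R pr o ∅
  simpa only [Gn_empty, Set.empty_union] using this

/-! The region of the other player. -/

def Jn (K X3 : Set S) : Set S := lf fun X2 => gf fun X1 => stp R pr o X1 X2 (K ∪ X3)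

def Qn (K : Set S) : Set S := gf (Jn R pr o K)

def Rn (K J : Set S) : Set S := gf fun X1 => stp R pr o (J ∪ X1) (Qn R pr o K) (K ∪ Qn R pr o K)

theorem Jn_mono (K : Set S) : Monotone (Jn R pr o K) := fun _ _ h =>
  lf_mono fun _ => gf_mono fun _ => stp_mono R pr o (Set.Subset.refl _) (Set.Subset.refl _)
    (Set.union_subset_union_right _ h)

theorem mono2' (X3 : Set S) : Monotone fun X2 => gf fun X1 => stp R pr o X1 X2 X3 :=
  fun _ _ h => gf_mono fun _ => stp_mono R pr o (Set.Subset.refl _) h (Set.Subset.refl _)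

theorem mono1' (J X2 X3 : Set S) : Monotone fun X1 => stp R pr o (J ∪ X1) X2 X3 :=
  fun _ _ h => stp_mono R pr o (Set.union_subset_union_right _ h) (Set.Subset.refl _)
    (Set.Subset.refl _)

theorem Qn_eq' (K : Set S) : Jn R pr o K (Qn R pr o K) = Qn R pr o K := gf_fix (Jn_mono R pr o K)

theorem Qn_eq'' (K : Set S) :
    (gf fun X1 => stp R pr o X1 (Qn R pr o K) (K ∪ Qn R pr o K)) = Qn R pr o K := by
  have h1 := Qn_eq' R pr o K
  have h2 : (fun X2 => gf fun X1 => stp R pr o X1 X2 (K ∪ Qn R pr o K))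
      (Jn R pr o K (Qn R pr o K)) = Jn R pr o K (Qn R pr o K) := lf_fix (mono2' R pr o _)
  rw [h1] at h2
  exact h2

theorem Rn_empty (K : Set S) : Rn R pr o K ∅ = Qn R pr o K := by
  unfold Rn
  simp only [Set.empty_union]
  exact Qn_eq'' R pr o K

theorem Rn_eq (K J : Set S) :
    stp R pr o (J ∪ Rn R pr o K J) (Qn R pr o K) (K ∪ Qn R pr o K) = Rn R pr o K J :=
  gf_fix (mono1' R pr o J _ _)

theorem Qn_eq (K : Set S) :
    stp R pr o (Qn R pr o K) (Qn R pr o K) (K ∪ Qn R pr o K) = Qn R pr o K := by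
  have := Rn_eq R pr o K ∅
  simpa only [Rn_empty, Set.empty_union] using this

theorem Rn_mono (K : Set S) {J J' : Set S} (h : J ⊆ J') : Rn R pr o K J ⊆ Rn R pr o K J' :=
  gf_mono fun _ => stp_mono R pr o (Set.union_subset_union_left _ h) (Set.Subset.refl _)
    (Set.Subset.refl _)

theorem Qn_sub_Rn (K J : Set S) : Qn R pr o K ⊆ Rn R pr o K J := by
  rw [← Rn_empty R pr o K]
  exact Rn_mono R pr o K (Set.empty_subset _)

theorem Qn_mono {K K' : Set S} (h : K ⊆ K') : Qn R pr o K ⊆ Qn R pr o K' :=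
  gf_mono fun _ => lf_mono fun _ => gf_mono fun _ => stp_mono R pr o (Set.Subset.refl _)
    (Set.Subset.refl _) (Set.union_subset_union_left _ h)

theorem Qn_acc {K X : Set S} (h : X ⊆ Qn R pr o (K ∪ X)) : X ⊆ Qn R pr o K := by
  refine h.trans (le_gf ?_)
  have h1 := Qn_eq' R pr o (K ∪ X)
  have h2 : K ∪ X ∪ Qn R pr o (K ∪ X) = K ∪ Qn R pr o (K ∪ X) := by
    rw [Set.union_assoc, Set.union_eq_self_of_subset_left h]
  unfold Jn at h1
  rw [h2] at h1
  exact le_of_eq h1.symm

theorem Rn_acc {K J X : Set S} (h : X ⊆ Rn R pr o K (J ∪ X)) : X ⊆ Rn R pr o K J := by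
  refine h.trans (le_gf ?_)
  have h1 := Rn_eq R pr o K (J ∪ X)
  have h2 : J ∪ X ∪ Rn R pr o K (J ∪ X) = J ∪ Rn R pr o K (J ∪ X) := by
    rw [Set.union_assoc, Set.union_eq_self_of_subset_left h]
  rw [h2] at h1
  exact le_of_eq h1.symm

end Fix

/-! ### The self-referential game -/

/-- Positions of the game in which a formula is evaluated on the game itself. -/
inductive St : Type
  | root : St
  | pos (w : St) (a : AF) (e : List (ℕ × ℕ × AF)) : St

/-- The innermost binder of a variable. -/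
def look (x : ℕ) : List (ℕ × ℕ × AF) → Option (ℕ × AF × List (ℕ × ℕ × AF))
  | [] => none
  | (y, k, a) :: e => if y = x then some (k, a, (y, k, a) :: e) else look x e

/-- The priority of a position. -/
def prio : St → ℕ
  | .root => 1
  | .pos _ a e => match a with
    | .var x => match look x e with
      | some (k, _, _) => k
      | none => 1
    | _ => 1

/-- The positions of the verifier. -/
def own : St → Prop
  | .root => True
  | .pos w a _ => match a with
    | .tt => False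
    | .ff => True
    | .lit p => ¬ ((p = 0 ∧ own w) ∨ (p = 1 ∧ prio w = 2) ∨ (p = 2 ∧ prio w = 3))
    | .nlit p => (p = 0 ∧ own w) ∨ (p = 1 ∧ prio w = 2) ∨ (p = 2 ∧ prio w = 3)
    | .var _ => True
    | .conj _ _ => False
    | .disj _ _ => True
    | .dia _ => True
    | .box _ => False
    | .fix _ _ _ => True

/-- The moves. -/
def mv (c : AF) : St → St → Prop
  | .root, u => u = .pos .root c []
  | .pos w a e, u => match a with
    | .tt => False
    | .ff => False
    | .lit _ => False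
    | .nlit _ => False
    | .var x => ∃ k b e', look x e = some (k, b, e') ∧ u = .pos w b e'
    | .conj a b => u = .pos w a e ∨ u = .pos w b e
    | .disj a b => u = .pos w a e ∨ u = .pos w b e
    | .dia a => ∃ v, mv c w v ∧ u = .pos v a e
    | .box a => ∃ v, mv c w v ∧ u = .pos v a e
    | .fix k x a => u = .pos w a ((x, k, a) :: e)

/-- The game as a Kripke model; letter `0` marks the positions of the verifier, letters `1` and
`2` mark the positions of priority two and three. -/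
def gm (c : AF) : Model.{0} where
  W := St
  rel := mv c
  val := fun p w => (p = 0 ∧ own w) ∨ (p = 1 ∧ prio w = 2) ∨ (p = 2 ∧ prio w = 3)

theorem look_skip {x y k : ℕ} {a : AF} {e : List (ℕ × ℕ × AF)} (h : y ≠ x) :
    look y ((x, k, a) :: e) = look y e := by
  simp [look, Ne.symm h]

theorem look_self {x k : ℕ} {a : AF} {e : List (ℕ × ℕ × AF)} :
    look x ((x, k, a) :: e) = some (k, a, (x, k, a) :: e) := by
  simp [look]

theorem stp_var_congr {c : AF} {o : Prop → Prop} {y : ℕ} {w : St} {e e' : List (ℕ × ℕ × AF)}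
    (h : look y e = look y e') {X1 X2 X3 : Set St} :
    St.pos w (.var y) e ∈ stp (mv c) prio (fun v => o (own v)) X1 X2 X3 ↔
      St.pos w (.var y) e' ∈ stp (mv c) prio (fun v => o (own v)) X1 X2 X3 := by
  simp only [stp, Set.mem_ofPred_eq, mv, own, prio, h]

theorem stp_one {R : St → St → Prop} {o : St → Prop} {v u : St}
    (h : ∀ t, R v t ↔ t = u) {X1 X2 X3 : Set St} :
    v ∈ stp R prio o X1 X2 X3 ↔ u ∈ sel (prio v) X1 X2 X3 := by
  simp only [stp, Set.mem_ofPred_eq, h, exists_eq_left, forall_eq]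
  tauto

theorem mv_fix {c : AF} {w : St} {k x : ℕ} {a : AF} {e : List (ℕ × ℕ × AF)} (t : St) :
    mv c (.pos w (.fix k x a) e) t ↔ t = .pos w a ((x, k, a) :: e) := Iff.rfl

theorem mv_var {c : AF} {w : St} {k x : ℕ} {a : AF} {e : List (ℕ × ℕ × AF)} (t : St) :
    mv c (.pos w (.var x) ((x, k, a) :: e)) t ↔ t = .pos w a ((x, k, a) :: e) := by
  simp only [mv, look_self]
  constructor
  · rintro ⟨k', b, e', h, rfl⟩
    simp only [Option.some.injEq, Prod.mk.injEq] at h
    obtain ⟨_, rfl, rfl⟩ := h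
    rfl
  · rintro rfl
    exact ⟨k, a, _, rfl, rfl⟩

theorem prio_var {w : St} {k x : ℕ} {a : AF} {e : List (ℕ × ℕ × AF)} :
    prio (.pos w (.var x) ((x, k, a) :: e)) = k := by
  simp only [prio, look_self]

theorem prio_fix {w : St} {k x : ℕ} {a : AF} {e : List (ℕ × ℕ × AF)} :
    prio (.pos w (.fix k x a) e) = 1 := rfl

/-- Truth gives positions winning for the verifier. -/
theorem truth_win (c : AF) (a : AF) : ∀ (ρ : ℕ → ℕ) (e : List (ℕ × ℕ × AF)) (V : ℕ → Set St)
    (K : Set St), OK 3 ρ a →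
    (∀ y ∈ a.fv, (∀ w ∈ V y, St.pos w (.var y) e ∈ Gn (mv c) prio own K) ∧
      (3 ≤ ρ y → ∀ w ∈ V y, St.pos w (.var y) e ∈ Wn (mv c) prio own)) →
    ∀ w ∈ a.erase.sem (gm c) V, St.pos w a e ∈ Gn (mv c) prio own K := by
  induction a with
  | tt =>
    intro ρ e V K _ _ w _
    rw [← Gn_eq]
    exact Or.inr ⟨not_false, fun u hu => hu.elim⟩
  | ff => intro ρ e V K _ _ w hw; exact hw.elim
  | lit p =>
    intro ρ e V K _ _ w hw
    rw [← Gn_eq]
    exact Or.inr ⟨not_not.2 hw, fun u hu => hu.elim⟩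
  | nlit p =>
    intro ρ e V K _ _ w hw
    rw [← Gn_eq]
    exact Or.inr ⟨hw, fun u hu => hu.elim⟩
  | var y =>
    intro ρ e V K _ hV w hw
    exact (hV y rfl).1 w hw
  | conj a b iha ihb =>
    intro ρ e V K hOK hV w hw
    rw [← Gn_eq]
    refine Or.inr ⟨not_false, fun u hu => ?_⟩
    rcases hu with rfl | rfl
    · exact iha ρ e V K hOK.1 (fun y hy => hV y (Or.inl hy)) w hw.1
    · exact ihb ρ e V K hOK.2 (fun y hy => hV y (Or.inr hy)) w hw.2
  | disj a b iha ihb =>
    intro ρ e V K hOK hV w hw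
    rw [← Gn_eq]
    refine Or.inl ⟨trivial, ?_⟩
    rcases hw with hw | hw
    · exact ⟨_, Or.inl rfl, iha ρ e V K hOK.1 (fun y hy => hV y (Or.inl hy)) w hw⟩
    · exact ⟨_, Or.inr rfl, ihb ρ e V K hOK.2 (fun y hy => hV y (Or.inr hy)) w hw⟩
  | dia a ih =>
    intro ρ e V K hOK hV w hw
    rw [← Gn_eq]
    obtain ⟨v, hv, hv'⟩ := hw
    exact Or.inl ⟨trivial, _, ⟨v, hv, rfl⟩, ih ρ e V K hOK hV v hv'⟩
  | box a ih =>
    intro ρ e V K hOK hV w hw
    rw [← Gn_eq]
    refine Or.inr ⟨not_false, fun u hu => ?_⟩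
    obtain ⟨v, hv, rfl⟩ := hu
    exact ih ρ e V K hOK hV v (hw v hv)
  | fix k x a ih =>
    intro ρ e V K hOK hV w hw
    obtain ⟨hk1, hk3, hfv, hOK'⟩ := hOK
    have hstep : St.pos w a ((x, k, a) :: e) ∈ Gn (mv c) prio own K →
        St.pos w (.fix k x a) e ∈ Gn (mv c) prio own K := by
      intro h
      rw [← Gn_eq, stp_one mv_fix, prio_fix]
      exact h
    -- the other variables
    have hoth : ∀ (K' : Set St), K ⊆ K' → ∀ y ∈ a.fv, y ≠ x → ∀ w ∈ V y,
        St.pos w (.var y) ((x, k, a) :: e) ∈ Gn (mv c) prio own K' := by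
      intro K' hK y hy hyx w hw
      have h1 := Gn_mono (mv c) prio own hK ((hV y ⟨hy, hyx⟩).1 w hw)
      rw [← Gn_eq] at h1 ⊢
      exact (stp_var_congr (o := fun P => P) (look_skip hyx)).2 h1
    have hothW : ∀ y ∈ a.fv, y ≠ x → 3 ≤ ρ y → ∀ w ∈ V y,
        St.pos w (.var y) ((x, k, a) :: e) ∈ Wn (mv c) prio own := by
      intro y hy hyx h3 w hw
      have h1 := (hV y ⟨hy, hyx⟩).2 h3 w hw
      rw [← Wn_eq] at h1 ⊢
      exact (stp_var_congr (o := fun P => P) (look_skip hyx)).2 h1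
    apply hstep
    have hk : k = 1 ∨ k = 2 ∨ k = 3 := by omega
    rcases hk with rfl | rfl | rfl
    · -- a least fixpoint of rank one
      refine hw {w | St.pos w a ((x, 1, a) :: e) ∈ Gn (mv c) prio own K} ?_
      intro v hv
      refine ih _ _ _ K hOK' (fun y hy => ?_) v hv
      by_cases hyx : y = x
      · subst hyx
        simp only [Function.update_self]
        refine ⟨fun v hv => ?_, fun h => absurd h (by omega)⟩
        rw [← Gn_eq, stp_one mv_var, prio_var]
        exact hv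
      · simp only [Function.update_of_ne hyx]
        exact ⟨hoth K (Set.Subset.refl _) y hy hyx, hothW y hy hyx⟩
    · -- a greatest fixpoint
      obtain ⟨U, hU, hwU⟩ := hw
      let X : Set St := {s | ∃ w ∈ U, s = St.pos w a ((x, 2, a) :: e)}
      have hX : X ⊆ Gn (mv c) prio own (K ∪ X) := by
        rintro s ⟨v, hv, rfl⟩
        refine ih _ _ _ (K ∪ X) hOK' (fun y hy => ?_) v (hU hv)
        by_cases hyx : y = x
        · subst hyx
          simp only [Function.update_self]
          refine ⟨fun v hv => ?_, fun h => absurd h (by omega)⟩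
          rw [← Gn_eq, stp_one mv_var, prio_var]
          exact Or.inl (Or.inr ⟨v, hv, rfl⟩)
        · simp only [Function.update_of_ne hyx]
          exact ⟨hoth _ Set.subset_union_left y hy hyx, hothW y hy hyx⟩
      exact Gn_acc (mv c) prio own hX ⟨w, hwU, rfl⟩
    · -- a least fixpoint of rank three
      refine Gn_mono (mv c) prio own (Set.empty_subset K) ?_
      refine hw {w | St.pos w a ((x, 3, a) :: e) ∈ Gn (mv c) prio own ∅} ?_
      intro v hv
      refine ih _ _ _ ∅ hOK' (fun y hy => ?_) v hv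
      by_cases hyx : y = x
      · subst hyx
        simp only [Function.update_self]
        have h1 : ∀ v ∈ {w | St.pos w a ((y, 3, a) :: e) ∈ Gn (mv c) prio own ∅},
            St.pos v (.var y) ((y, 3, a) :: e) ∈ Wn (mv c) prio own := by
          intro v hv
          rw [← Wn_eq, stp_one mv_var, prio_var]
          rw [Gn_empty] at hv
          exact hv
        refine ⟨fun v hv => ?_, fun _ => h1⟩
        rw [Gn_empty]
        exact h1 v hv
      · simp only [Function.update_of_ne hyx]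
        have h3 := hothW y hy hyx (hfv y hy hyx)
        refine ⟨?_, fun _ => h3⟩
        rw [Gn_empty]
        exact h3

/-- Falsity gives positions winning for the refuter. -/
theorem false_win (c : AF) (a : AF) : ∀ (ρ : ℕ → ℕ) (e : List (ℕ × ℕ × AF)) (V : ℕ → Set St)
    (K J : Set St), OK 3 ρ a →
    (∀ y ∈ a.fv,
      (∀ w, w ∉ V y → St.pos w (.var y) e ∈ Rn (mv c) prio (fun v => ¬ own v) K J) ∧
      (2 ≤ ρ y → ∀ w, w ∉ V y → St.pos w (.var y) e ∈ Qn (mv c) prio (fun v => ¬ own v) K)) →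
    ∀ w, w ∉ a.erase.sem (gm c) V → St.pos w a e ∈ Rn (mv c) prio (fun v => ¬ own v) K J := by
  induction a with
  | tt => intro ρ e V K J _ _ w hw; exact absurd trivial hw
  | ff =>
    intro ρ e V K J _ _ w _
    rw [← Rn_eq]
    exact Or.inr ⟨not_not.2 trivial, fun u hu => hu.elim⟩
  | lit p =>
    intro ρ e V K J _ _ w hw
    rw [← Rn_eq]
    exact Or.inr ⟨not_not.2 hw, fun u hu => hu.elim⟩
  | nlit p =>
    intro ρ e V K J _ _ w hw
    rw [← Rn_eq]
    refine Or.inr ⟨?_, fun u hu => hu.elim⟩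
    exact hw
  | var y =>
    intro ρ e V K J _ hV w hw
    exact (hV y rfl).1 w hw
  | conj a b iha ihb =>
    intro ρ e V K J hOK hV w hw
    rw [← Rn_eq]
    refine Or.inl ⟨not_false, ?_⟩
    by_cases ha : w ∈ a.erase.sem (gm c) V
    · have hb : w ∉ b.erase.sem (gm c) V := fun hb => hw ⟨ha, hb⟩
      exact ⟨_, Or.inr rfl, Or.inr (ihb ρ e V K J hOK.2 (fun y hy => hV y (Or.inr hy)) w hb)⟩
    · exact ⟨_, Or.inl rfl, Or.inr (iha ρ e V K J hOK.1 (fun y hy => hV y (Or.inl hy)) w ha)⟩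
  | disj a b iha ihb =>
    intro ρ e V K J hOK hV w hw
    rw [← Rn_eq]
    refine Or.inr ⟨not_not.2 trivial, fun u hu => ?_⟩
    rcases hu with rfl | rfl
    · exact Or.inr (iha ρ e V K J hOK.1 (fun y hy => hV y (Or.inl hy)) w fun h => hw (Or.inl h))
    · exact Or.inr (ihb ρ e V K J hOK.2 (fun y hy => hV y (Or.inr hy)) w fun h => hw (Or.inr h))
  | dia a ih =>
    intro ρ e V K J hOK hV w hw
    rw [← Rn_eq]
    refine Or.inr ⟨not_not.2 trivial, fun u hu => ?_⟩
    obtain ⟨v, hv, rfl⟩ := hu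
    exact Or.inr (ih ρ e V K J hOK hV v fun h => hw ⟨v, hv, h⟩)
  | box a ih =>
    intro ρ e V K J hOK hV w hw
    rw [← Rn_eq]
    have hw' : ∃ v, mv c w v ∧ v ∉ a.erase.sem (gm c) V := by
      by_contra hcon
      push Not at hcon
      exact hw fun v hv => hcon v hv
    obtain ⟨v, hv, hv'⟩ := hw'
    exact Or.inl ⟨not_false, _, ⟨v, hv, rfl⟩, Or.inr (ih ρ e V K J hOK hV v hv')⟩
  | fix k x a ih =>
    intro ρ e V K J hOK hV w hw
    obtain ⟨hk1, hk3, hfv, hOK'⟩ := hOK
    have hstep : St.pos w a ((x, k, a) :: e) ∈ Rn (mv c) prio (fun v => ¬ own v) K J →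
        St.pos w (.fix k x a) e ∈ Rn (mv c) prio (fun v => ¬ own v) K J := by
      intro h
      rw [← Rn_eq, stp_one mv_fix, prio_fix]
      exact Or.inr h
    -- the other variables
    have hoth : ∀ (J' : Set St), J ⊆ J' → ∀ y ∈ a.fv, y ≠ x → ∀ w, w ∉ V y →
        St.pos w (.var y) ((x, k, a) :: e) ∈ Rn (mv c) prio (fun v => ¬ own v) K J' := by
      intro J' hJ y hy hyx w hw
      have h1 := Rn_mono (mv c) prio (fun v => ¬ own v) K hJ ((hV y ⟨hy, hyx⟩).1 w hw)
      rw [← Rn_eq] at h1 ⊢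
      exact (stp_var_congr (o := fun P => ¬ P) (look_skip hyx)).2 h1
    have hothQ : ∀ (K' : Set St), K ⊆ K' → ∀ y ∈ a.fv, y ≠ x → 2 ≤ ρ y → ∀ w, w ∉ V y →
        St.pos w (.var y) ((x, k, a) :: e) ∈ Qn (mv c) prio (fun v => ¬ own v) K' := by
      intro K' hK y hy hyx h2 w hw
      have h1 := Qn_mono (mv c) prio (fun v => ¬ own v) hK ((hV y ⟨hy, hyx⟩).2 h2 w hw)
      rw [← Qn_eq] at h1 ⊢
      exact (stp_var_congr (o := fun P => ¬ P) (look_skip hyx)).2 h1
    apply hstep
    have hk : k = 1 ∨ k = 2 ∨ k = 3 := by omega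
    rcases hk with rfl | rfl | rfl
    · -- a least fixpoint of rank one
      have hw' : ∃ U : Set St, a.erase.sem (gm c) (Function.update V x U) ⊆ U ∧ w ∉ U := by
        by_contra hcon
        push Not at hcon
        exact hw hcon
      obtain ⟨U, hU, hwU⟩ := hw'
      let X : Set St := {s | ∃ w, w ∉ U ∧ s = St.pos w a ((x, 1, a) :: e)}
      have hX : X ⊆ Rn (mv c) prio (fun v => ¬ own v) K (J ∪ X) := by
        rintro s ⟨v, hv, rfl⟩
        refine ih _ _ _ K (J ∪ X) hOK' (fun y hy => ?_) v fun h => hv (hU h)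
        by_cases hyx : y = x
        · subst hyx
          simp only [Function.update_self]
          refine ⟨fun v hv => ?_, fun h => absurd h (by omega)⟩
          rw [← Rn_eq, stp_one mv_var, prio_var]
          exact Or.inl (Or.inr ⟨v, hv, rfl⟩)
        · simp only [Function.update_of_ne hyx]
          exact ⟨hoth _ Set.subset_union_left y hy hyx,
            hothQ K (Set.Subset.refl _) y hy hyx⟩
      exact Rn_acc (mv c) prio (fun v => ¬ own v) hX ⟨w, hwU, rfl⟩
    · -- a greatest fixpoint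
      refine Qn_sub_Rn (mv c) prio (fun v => ¬ own v) K J ?_
      by_contra hcon
      refine hw ⟨{w | St.pos w a ((x, 2, a) :: e) ∉ Qn (mv c) prio (fun v => ¬ own v) K}, ?_, hcon⟩
      intro v hv
      by_contra hv'
      apply hv
      rw [← Rn_empty]
      refine ih _ _ _ K ∅ hOK' (fun y hy => ?_) v hv'
      by_cases hyx : y = x
      · subst hyx
        simp only [Function.update_self]
        have h1 : ∀ v, v ∉ {w | St.pos w a ((y, 2, a) :: e) ∉ Qn (mv c) prio (fun v => ¬ own v) K} →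
            St.pos v (.var y) ((y, 2, a) :: e) ∈ Qn (mv c) prio (fun v => ¬ own v) K := by
          intro v hv
          rw [← Qn_eq, stp_one mv_var, prio_var]
          exact not_not.1 hv
        refine ⟨fun v hv => ?_, fun _ => h1⟩
        rw [Rn_empty]
        exact h1 v hv
      · simp only [Function.update_of_ne hyx]
        have h3 := hothQ K (Set.Subset.refl _) y hy hyx (hfv y hy hyx)
        refine ⟨?_, fun _ => h3⟩
        rw [Rn_empty]
        exact h3
    · -- a least fixpoint of rank three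
      have hw' : ∃ U : Set St, a.erase.sem (gm c) (Function.update V x U) ⊆ U ∧ w ∉ U := by
        by_contra hcon
        push Not at hcon
        exact hw hcon
      obtain ⟨U, hU, hwU⟩ := hw'
      let X : Set St := {s | ∃ w, w ∉ U ∧ s = St.pos w a ((x, 3, a) :: e)}
      have hX : X ⊆ Qn (mv c) prio (fun v => ¬ own v) (K ∪ X) := by
        rintro s ⟨v, hv, rfl⟩
        rw [← Rn_empty]
        refine ih _ _ _ (K ∪ X) ∅ hOK' (fun y hy => ?_) v fun h => hv (hU h)
        by_cases hyx : y = x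
        · subst hyx
          simp only [Function.update_self]
          have h1 : ∀ v, v ∉ U → St.pos v (.var y) ((y, 3, a) :: e) ∈
              Qn (mv c) prio (fun v => ¬ own v) (K ∪ X) := by
            intro v hv
            rw [← Qn_eq, stp_one mv_var, prio_var]
            exact Or.inl (Or.inr ⟨v, hv, rfl⟩)
          refine ⟨fun v hv => ?_, fun _ => h1⟩
          rw [Rn_empty]
          exact h1 v hv
        · simp only [Function.update_of_ne hyx]
          have h3 := hothQ (K ∪ X) Set.subset_union_left y hy hyx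
            (le_trans (by omega) (hfv y hy hyx))
          refine ⟨?_, fun _ => h3⟩
          rw [Rn_empty]
          exact h3
      exact Qn_sub_Rn (mv c) prio (fun v => ¬ own v) K J
        (Qn_acc (mv c) prio (fun v => ¬ own v) hX ⟨w, hwU, rfl⟩)

/-! ### Monotonicity, bounded morphisms and negation -/

theorem sem_mono (M : Model.{u}) (a : Fm) : ∀ {V V' : ℕ → Set M.W}, (∀ y, V y ⊆ V' y) →
    a.sem M V ⊆ a.sem M V' := by
  have hup : ∀ {V V' : ℕ → Set M.W}, (∀ y, V y ⊆ V' y) → ∀ (x : ℕ) (U : Set M.W) (y : ℕ),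
      Function.update V x U y ⊆ Function.update V' x U y := by
    intro V V' h x U y
    by_cases hy : y = x
    · subst hy; simp
    · simp only [Function.update_of_ne hy]; exact h y
  induction a with
  | tt => intro V V' _; exact Set.Subset.refl _
  | ff => intro V V' _; exact Set.Subset.refl _
  | lit p => intro V V' _; exact Set.Subset.refl _
  | nlit p => intro V V' _; exact Set.Subset.refl _
  | var y => intro V V' h; exact h y
  | conj a b iha ihb => intro V V' h; exact Set.inter_subset_inter (iha h) (ihb h)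
  | disj a b iha ihb => intro V V' h; exact Set.union_subset_union (iha h) (ihb h)
  | dia a ih =>
    rintro V V' h w ⟨v, hv, hv'⟩
    exact ⟨v, hv, ih h hv'⟩
  | box a ih =>
    intro V V' h w hw v hv
    exact ih h (hw v hv)
  | mu x a ih =>
    intro V V' h w hw U hU
    exact hw U ((ih (hup h x U)).trans hU)
  | nu x a ih =>
    rintro V V' h w ⟨U, hU, hw⟩
    exact ⟨U, hU.trans (ih (hup h x U)), hw⟩

universe v

theorem sem_morph {M : Model.{u}} {M' : Model.{v}} (π : M'.W → M.W) (L : Set ℕ)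
    (hval : ∀ p ∈ L, ∀ x, M'.val p x ↔ M.val p (π x))
    (hf : ∀ x y, M'.rel x y → M.rel (π x) (π y))
    (hb : ∀ x t, M.rel (π x) t → ∃ y, M'.rel x y ∧ π y = t) (a : Fm) (ha : a.letters ⊆ L) :
    ∀ V : ℕ → Set M.W, a.sem M' (fun y => π ⁻¹' V y) = π ⁻¹' (a.sem M V) := by
  have hup : ∀ (V : ℕ → Set M.W) (x : ℕ) (U : Set M.W),
      Function.update (fun y => π ⁻¹' V y) x (π ⁻¹' U) =
        fun y => π ⁻¹' (Function.update V x U y) := by
    intro V x U
    funext y
    by_cases hy : y = x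
    · subst hy; simp
    · simp [Function.update_of_ne hy]
  induction a with
  | tt => intro V; rfl
  | ff => intro V; rfl
  | lit p => intro V; ext x; exact hval p (ha rfl) x
  | nlit p => intro V; ext x; exact not_congr (hval p (ha rfl) x)
  | var y => intro V; rfl
  | conj a b iha ihb =>
    intro V
    simp only [Fm.sem]
    rw [iha (fun _ h => ha (Or.inl h)) V, ihb (fun _ h => ha (Or.inr h)) V]
    rfl
  | disj a b iha ihb =>
    intro V
    simp only [Fm.sem]
    rw [iha (fun _ h => ha (Or.inl h)) V, ihb (fun _ h => ha (Or.inr h)) V]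
    rfl
  | dia a ih =>
    intro V
    ext x
    simp only [Fm.sem, ih ha V, Set.mem_ofPred_eq, Set.mem_preimage]
    constructor
    · rintro ⟨y, hy, hy'⟩
      exact ⟨π y, hf x y hy, hy'⟩
    · rintro ⟨t, ht, ht'⟩
      obtain ⟨y, hy, rfl⟩ := hb x t ht
      exact ⟨y, hy, ht'⟩
  | box a ih =>
    intro V
    ext x
    simp only [Fm.sem, ih ha V, Set.mem_ofPred_eq, Set.mem_preimage]
    constructor
    · intro h t ht
      obtain ⟨y, hy, rfl⟩ := hb x t ht
      exact h y hy
    · intro h y hy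
      exact h (π y) (hf x y hy)
  | mu x a ih =>
    intro V
    ext z
    simp only [Fm.sem, Set.mem_ofPred_eq, Set.mem_preimage]
    constructor
    · intro h U hU
      refine h (π ⁻¹' U) ?_
      rw [hup, ih ha]
      exact Set.preimage_mono hU
    · intro h U' hU'
      have h1 := h {t | ∀ y, π y = t → y ∈ U'} ?_
      · exact h1 z rfl
      · intro t ht y hy
        subst hy
        apply hU'
        have h2 : y ∈ π ⁻¹' (a.sem M (Function.update V x {t | ∀ y, π y = t → y ∈ U'})) := ht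
        rw [← ih ha, ← hup] at h2
        refine sem_mono M' a ?_ h2
        intro y'
        by_cases hy' : y' = x
        · subst hy'
          simp only [Function.update_self]
          intro s hs
          exact hs s rfl
        · simp [Function.update_of_ne hy']
  | nu x a ih =>
    intro V
    ext z
    simp only [Fm.sem, Set.mem_ofPred_eq, Set.mem_preimage]
    constructor
    · rintro ⟨U', hU', hz⟩
      refine ⟨π '' U', ?_, ⟨z, hz, rfl⟩⟩
      rintro _ ⟨y, hy, rfl⟩
      have h2 : y ∈ a.sem M' (Function.update (fun y => π ⁻¹' V y) x (π ⁻¹' (π '' U'))) := by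
        refine sem_mono M' a ?_ (hU' hy)
        intro y'
        by_cases hy' : y' = x
        · subst hy'
          simp only [Function.update_self]
          exact Set.subset_preimage_image π U'
        · simp [Function.update_of_ne hy']
      rw [hup, ih ha] at h2
      exact h2
    · rintro ⟨U, hU, hz⟩
      refine ⟨π ⁻¹' U, ?_, hz⟩
      rw [hup, ih ha]
      exact Set.preimage_mono hU

/-- Negation, pushed to the letters. -/
def Fm.neg : Fm → Fm
  | .tt => .ff
  | .ff => .tt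
  | .lit p => .nlit p
  | .nlit p => .lit p
  | .var y => .var y
  | .conj a b => .disj a.neg b.neg
  | .disj a b => .conj a.neg b.neg
  | .dia a => .box a.neg
  | .box a => .dia a.neg
  | .mu x a => .nu x a.neg
  | .nu x a => .mu x a.neg

theorem neg_neg (a : Fm) : a.neg.neg = a := by
  induction a with
  | _ => simp_all [Fm.neg]

theorem letters_neg (a : Fm) : a.neg.letters = a.letters := by
  induction a with
  | _ => simp_all [Fm.neg, Fm.letters]

theorem fv_neg (a : Fm) : a.neg.fv = a.fv := by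
  induction a with
  | _ => simp_all [Fm.neg, Fm.fv]

theorem sem_neg (M : Model.{u}) (a : Fm) : ∀ V : ℕ → Set M.W,
    a.neg.sem M V = (a.sem M fun y => (V y)ᶜ)ᶜ := by
  have hup : ∀ (V : ℕ → Set M.W) (x : ℕ) (U : Set M.W),
      (fun y => (Function.update V x U y)ᶜ) = Function.update (fun y => (V y)ᶜ) x Uᶜ := by
    intro V x U
    funext y
    by_cases hy : y = x
    · subst hy; simp
    · simp [Function.update_of_ne hy]
  induction a with
  | tt => intro V; simp [Fm.neg, Fm.sem]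
  | ff => intro V; simp [Fm.neg, Fm.sem]
  | lit p => intro V; rfl
  | nlit p => intro V; ext w; simp [Fm.neg, Fm.sem]
  | var y => intro V; simp [Fm.neg, Fm.sem]
  | conj a b iha ihb => intro V; simp only [Fm.neg, Fm.sem, iha, ihb, Set.compl_inter]
  | disj a b iha ihb => intro V; simp only [Fm.neg, Fm.sem, iha, ihb, Set.compl_union]
  | dia a ih =>
    intro V
    ext w
    simp only [Fm.neg, Fm.sem, ih, Set.mem_ofPred_eq, Set.mem_compl_iff, not_exists, not_and]
  | box a ih =>
    intro V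
    ext w
    simp only [Fm.neg, Fm.sem, ih, Set.mem_ofPred_eq, Set.mem_compl_iff]
    push Not
    exact Iff.rfl
  | mu x a ih =>
    intro V
    ext w
    simp only [Fm.neg, Fm.sem, ih, hup, Set.mem_ofPred_eq, Set.mem_compl_iff]
    push Not
    constructor
    · rintro ⟨U, hU, hw⟩
      exact ⟨Uᶜ, Set.subset_compl_comm.1 hU, fun h => h hw⟩
    · rintro ⟨U, hU, hw⟩
      refine ⟨Uᶜ, ?_, hw⟩
      rw [compl_compl]
      exact Set.compl_subset_compl.2 hU
  | nu x a ih =>
    intro V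
    ext w
    simp only [Fm.neg, Fm.sem, ih, hup, Set.mem_ofPred_eq, Set.mem_compl_iff, not_exists, not_and]
    constructor
    · intro h U hU hw
      refine h Uᶜ ?_ hw
      rw [compl_compl]
      exact Set.compl_subset_compl.2 hU
    · intro h U hU
      by_contra hw
      exact h Uᶜ (Set.compl_subset_comm.1 hU) hw

theorem neg_subst (a : Fm) (x : ℕ) (c : Fm) : (a.subst x c).neg = a.neg.subst x c.neg := by
  induction a with
  | var y => simp only [Fm.subst, Fm.neg]; split_ifs <;> rfl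
  | mu y a ih =>
    simp only [Fm.subst, Fm.neg]
    split_ifs
    · rfl
    · simp only [Fm.neg, ih]
  | nu y a ih =>
    simp only [Fm.subst, Fm.neg]
    split_ifs
    · rfl
    · simp only [Fm.neg, ih]
  | _ => simp_all [Fm.subst, Fm.neg]

theorem noCapture_neg (a : Fm) (x : ℕ) (c : Fm) (h : a.NoCapture x c) :
    a.neg.NoCapture x c.neg := by
  induction a with
  | conj a b iha ihb => exact ⟨iha h.1, ihb h.2⟩
  | disj a b iha ihb => exact ⟨iha h.1, ihb h.2⟩
  | dia a ih => exact ih h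
  | box a ih => exact ih h
  | mu y a ih =>
    rcases h with h | h | h
    · exact Or.inl h
    · exact Or.inr (Or.inl (by rw [fv_neg]; exact h))
    · exact Or.inr (Or.inr ⟨by rw [fv_neg]; exact h.1, ih h.2⟩)
  | nu y a ih =>
    rcases h with h | h | h
    · exact Or.inl h
    · exact Or.inr (Or.inl (by rw [fv_neg]; exact h))
    · exact Or.inr (Or.inr ⟨by rw [fv_neg]; exact h.1, ih h.2⟩)
  | _ => trivial

theorem hier_neg {b : Bool} {n : ℕ} {a : Fm} (h : Hier b n a) : Hier (!b) n a.neg := by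
  induction h with
  | base b a h =>
    refine Hier.base _ _ ?_
    induction a with
    | conj a c iha ihc => exact ⟨iha h.1, ihc h.2⟩
    | disj a c iha ihc => exact ⟨iha h.1, ihc h.2⟩
    | dia a ih => exact ih h
    | box a ih => exact ih h
    | mu x a _ => exact h.elim
    | nu x a _ => exact h.elim
    | _ => trivial
  | up b b' n a _ ih => exact Hier.up _ _ _ _ ih
  | conj b n a c _ _ ih1 ih2 => exact Hier.disj _ _ _ _ ih1 ih2
  | disj b n a c _ _ ih1 ih2 => exact Hier.conj _ _ _ _ ih1 ih2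
  | dia b n a _ ih => exact Hier.box _ _ _ ih
  | box b n a _ ih => exact Hier.dia _ _ _ ih
  | mu n x a _ ih => exact Hier.nu _ _ _ ih
  | nu n x a _ ih => exact Hier.mu _ _ _ ih
  | subst b n x a c _ _ hc ih1 ih2 =>
    rw [neg_subst]
    exact Hier.subst _ _ _ _ _ ih1 ih2 (noCapture_neg a x c hc)

/-! ### Progress measures -/

section Measures

variable {S : Type} (R : S → S → Prop) (pr : S → ℕ) (o : S → Prop)

/-- A progress measure for the second player. -/
theorem exists_measure_Q : ∃ rk : S → Ordinal.{0}, ∀ v ∈ Qn R pr o ∅,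
    (o v ∧ ∃ u, R v u ∧ (u ∈ Qn R pr o ∅ ∧ (pr v = 2 → rk u < rk v) ∧
      (pr v ≠ 3 → rk u ≤ rk v))) ∨
    (¬ o v ∧ ∀ u, R v u → (u ∈ Qn R pr o ∅ ∧ (pr v = 2 → rk u < rk v) ∧
      (pr v ≠ 3 → rk u ≤ rk v))) := by
  set P := Qn R pr o ∅ with hP
  let F : Set S → Set S := fun X2 => gf fun X1 => stp R pr o X1 X2 P
  have hF : Monotone F := mono2' R pr o P
  have hlf : lf F = P := by
    have := Qn_eq' R pr o ∅
    simpa only [Jn, Set.empty_union] using this
  obtain ⟨rk, h1, h2⟩ := exists_rank hF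
  rw [hlf] at h1 h2
  refine ⟨rk, fun v hv => ?_⟩
  have h3 := h1 v hv
  have h4 : ∀ X2, F X2 = stp R pr o (F X2) X2 P := fun X2 =>
    (gf_fix (mono1 R pr o X2 P)).symm
  rw [h4] at h3
  have key : ∀ u, u ∈ sel (pr v) (F {u | u ∈ P ∧ rk u < rk v}) {u | u ∈ P ∧ rk u < rk v} P →
      (u ∈ P ∧ (pr v = 2 → rk u < rk v) ∧ (pr v ≠ 3 → rk u ≤ rk v)) := by
    intro u hu
    unfold sel at hu
    split_ifs at hu with h5 h6
    · exact ⟨hu, fun h => by omega, fun h => absurd h5 h⟩
    · exact ⟨hu.1, fun _ => hu.2, fun _ => hu.2.le⟩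
    · have := h2 _ u hu
      exact ⟨this.1, fun h => absurd h h6, fun _ => this.2⟩
  rcases h3 with ⟨ho, u, hu, hu'⟩ | ⟨ho, hu⟩
  · exact Or.inl ⟨ho, u, hu, key u hu'⟩
  · exact Or.inr ⟨ho, fun u hvu => key u (hu u hvu)⟩

/-- A progress measure for the first player. -/
theorem exists_measure_W : ∃ (rk : S → Ordinal.{0}) (rk' : Ordinal.{0} → S → Ordinal.{0}),
    ∀ v ∈ Wn R pr o,
    (o v ∧ ∃ u, R v u ∧ (u ∈ Wn R pr o ∧ (pr v = 3 → rk u < rk v) ∧ rk u ≤ rk v ∧
      (pr v ≠ 3 → pr v ≠ 2 → rk u = rk v → rk' (rk u) u < rk' (rk v) v))) ∨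
    (¬ o v ∧ ∀ u, R v u → (u ∈ Wn R pr o ∧ (pr v = 3 → rk u < rk v) ∧ rk u ≤ rk v ∧
      (pr v ≠ 3 → pr v ≠ 2 → rk u = rk v → rk' (rk u) u < rk' (rk v) v))) := by
  obtain ⟨rk, h1, h2⟩ := exists_rank (Hn_mono R pr o)
  let L : Ordinal.{0} → Set S := fun a => {u | u ∈ lf (Hn R pr o) ∧ rk u < a}
  let E : Ordinal.{0} → Set S := fun a => Hn R pr o (L a)
  have hE : ∀ a, (lf fun X1 => stp R pr o X1 (E a) (L a)) = E a := by
    intro a
    have := gf_fix (mono2 R pr o ∅ (L a))
    simp only [Set.empty_union] at this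
    exact this
  have h3 : ∀ a, ∃ rk' : S → Ordinal.{0}, ∀ v ∈ E a,
      v ∈ stp R pr o {u | u ∈ E a ∧ rk' u < rk' v} (E a) (L a) := by
    intro a
    obtain ⟨rk', h4, _⟩ := exists_rank (mono1 R pr o (E a) (L a))
    rw [hE] at h4
    exact ⟨rk', h4⟩
  choose rk' h4 using h3
  refine ⟨rk, rk', fun v hv => ?_⟩
  have h5 : v ∈ E (rk v) := h1 v hv
  have h6 := h4 (rk v) v h5
  have hEW : ∀ u, u ∈ E (rk v) → u ∈ Wn R pr o ∧ rk u ≤ rk v := fun u hu => h2 _ u hu
  have key : ∀ u, u ∈ sel (pr v) {u | u ∈ E (rk v) ∧ rk' (rk v) u < rk' (rk v) v} (E (rk v))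
      (L (rk v)) → (u ∈ Wn R pr o ∧ (pr v = 3 → rk u < rk v) ∧ rk u ≤ rk v ∧
      (pr v ≠ 3 → pr v ≠ 2 → rk u = rk v → rk' (rk u) u < rk' (rk v) v)) := by
    intro u hu
    unfold sel at hu
    split_ifs at hu with h7 h8
    · exact ⟨hu.1, fun _ => hu.2, hu.2.le, fun h => absurd h7 h⟩
    · exact ⟨(hEW u hu).1, fun h => absurd h h7, (hEW u hu).2, fun _ h => absurd h8 h⟩
    · refine ⟨(hEW u hu.1).1, fun h => absurd h h7, (hEW u hu.1).2, fun _ _ h => ?_⟩
      rw [h]
      exact hu.2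
  rcases h6 with ⟨ho, u, hu, hu'⟩ | ⟨ho, hu⟩
  · exact Or.inl ⟨ho, u, hu, key u hu'⟩
  · exact Or.inr ⟨ho, fun u hvu => key u (hu u hvu)⟩

/-- The unravelling relation. -/
def ur (x y : S × List S) : Prop := R x.1 y.1 ∧ y.2 = x.1 :: x.2

/-- A positional strategy gives a labelling of the unravelling. -/
theorem exists_label (P : Set S) (good : S → S → Prop) (hP : ∀ v u, good v u → u ∈ P)
    (h : ∀ v ∈ P, (o v ∧ ∃ u, R v u ∧ good v u) ∨ (¬ o v ∧ ∀ u, R v u → good v u))
    (v₀ : S) (hv₀ : v₀ ∈ P) : ∃ T : Set (S × List S), (v₀, []) ∈ T ∧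
      (∀ x ∈ T, o x.1 → ∃ y, ur R x y ∧ y ∈ T) ∧
      (∀ x ∈ T, ¬ o x.1 → ∀ y, ur R x y → y ∈ T) ∧
      ∀ x ∈ T, ∀ y ∈ T, ur R x y → good x.1 y.1 := by
  classical
  have hc : ∀ v, ∃ u, v ∈ P → o v → R v u ∧ good v u := by
    intro v
    by_cases hv : v ∈ P
    · rcases h v hv with ⟨_, u, hu⟩ | ⟨ho, _⟩
      · exact ⟨u, fun _ _ => hu⟩
      · exact ⟨v, fun _ h' => absurd h' ho⟩
    · exact ⟨v, fun h' => absurd h' hv⟩
  choose c hc using hc
  let inT : List S → S → Prop := fun l => l.rec (fun u => u = v₀)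
    (fun v _ ih u => ih v ∧ R v u ∧ (o v → u = c v))
  have hnil : ∀ u, inT [] u ↔ u = v₀ := fun _ => Iff.rfl
  have hcons : ∀ v t u, inT (v :: t) u ↔ (inT t v ∧ R v u ∧ (o v → u = c v)) :=
    fun _ _ _ => Iff.rfl
  have hgood : ∀ v u, v ∈ P → R v u → (o v → u = c v) → good v u := by
    intro v u hv hR hu
    by_cases ho : o v
    · rw [hu ho]; exact (hc v hv ho).2
    · rcases h v hv with ⟨ho', _⟩ | ⟨_, hall⟩
      · exact absurd ho' ho
      · exact hall u hR
  have hTP : ∀ t u, inT t u → u ∈ P := by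
    intro t
    induction t with
    | nil => intro u hu; rw [hnil] at hu; rw [hu]; exact hv₀
    | cons v t ih =>
      intro u hu
      rw [hcons] at hu
      exact hP v u (hgood v u (ih v hu.1) hu.2.1 hu.2.2)
  refine ⟨{x | inT x.2 x.1}, (hnil v₀).2 rfl, ?_, ?_, ?_⟩
  · rintro ⟨v, t⟩ hx ho
    have hv := hTP t v hx
    exact ⟨(c v, v :: t), ⟨(hc v hv ho).1, rfl⟩, (hcons v t (c v)).2
      ⟨hx, (hc v hv ho).1, fun _ => rfl⟩⟩
  · rintro ⟨v, t⟩ hx ho ⟨u, t'⟩ ⟨hR, ht⟩
    simp only at ht hR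
    subst ht
    exact (hcons v t u).2 ⟨hx, hR, fun h' => absurd h' ho⟩
  · rintro ⟨v, t⟩ hx ⟨u, t'⟩ hy ⟨hR, ht⟩
    simp only at ht hR
    subst ht
    have hy' := (hcons v t u).1 hy
    exact hgood v u (hTP t v hx) hR hy'.2.2

end Measures

/-! ### The formulas -/

/-- The points labelled by letter `l` form a strategy of the player who moves where `mine` holds,
and `t` holds at all of them. -/
def lab (l : ℕ) (mine other t : Fm) : Fm :=
  .conj (.lit l) (.nu 0 (.conj (.conj (.box (.disj (.nlit l) (.var 0))) t)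
    (.conj (.disj other (.dia (.lit l))) (.disj mine (.box (.lit l))))))

/-- On every path through `3`-points that meets no `2`-point there are finitely many `1`-points. -/
def thR : Fm := .mu 1 (.nu 2 (.disj (.lit 2) (.disj
  (.conj (.lit 1) (.box (.disj (.nlit 3) (.var 1))))
  (.conj (.nlit 1) (.box (.disj (.nlit 3) (.var 2)))))))

/-- On every path through `4`-points there are finitely many `2`-points. -/
def thA : Fm := .mu 1 (.nu 2 (.disj
  (.conj (.lit 2) (.box (.disj (.nlit 4) (.var 1))))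
  (.conj (.nlit 2) (.box (.disj (.nlit 4) (.var 2))))))

/-- Every path through `4`-points meets a `1`-point or a `2`-point. -/
def thB : Fm := .mu 1 (.disj (.lit 2) (.disj (.lit 1) (.box (.disj (.nlit 4) (.var 1)))))

/-- Letter `3` marks a winning strategy of the refuter. -/
def fR : Fm := lab 3 (.nlit 0) (.lit 0) thR

/-- Letter `4` marks a winning strategy of the verifier. -/
def fV : Fm := lab 4 (.lit 0) (.nlit 0) (.conj thA thB)

theorem sem_lab (M : Model.{u}) (l : ℕ) (mine other t : Fm) (V : ℕ → Set M.W) (w : M.W) :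
    w ∈ (lab l mine other t).sem M V ↔ M.val l w ∧ ∃ U : Set M.W,
      (∀ v ∈ U, (∀ y, M.rel v y → (¬ M.val l y ∨ y ∈ U)) ∧
        v ∈ t.sem M (Function.update V 0 U) ∧
        (v ∈ other.sem M (Function.update V 0 U) ∨ ∃ y, M.rel v y ∧ M.val l y) ∧
        (v ∈ mine.sem M (Function.update V 0 U) ∨ ∀ y, M.rel v y → M.val l y)) ∧ w ∈ U := by
  constructor
  · rintro ⟨h1, U, hU, hw⟩
    refine ⟨h1, U, fun v hv => ?_, hw⟩
    obtain ⟨⟨h2, h3⟩, h4, h5⟩ := hU hv
    exact ⟨h2, h3, h4, h5⟩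
  · rintro ⟨h1, U, hU, hw⟩
    refine ⟨h1, U, fun v hv => ?_, hw⟩
    obtain ⟨h2, h3, h4, h5⟩ := hU v hv
    exact ⟨⟨h2, h3⟩, h4, h5⟩

/-- The two players cannot both have a winning strategy. -/
theorem incompatible (M : Model.{u}) (V V' : ℕ → Set M.W) (w : M.W) (h : w ∈ fR.sem M V)
    (h' : w ∈ fV.sem M V') : False := by
  rw [fR, sem_lab] at h
  rw [fV, sem_lab] at h'
  obtain ⟨h3, U, hU, hwU⟩ := h
  obtain ⟨h4, U', hU', hwU'⟩ := h'
  let D : Set M.W := {v | M.val 3 v ∧ M.val 4 v ∧ v ∈ U ∧ v ∈ U'}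
  have hwD : w ∈ D := ⟨h3, h4, hwU, hwU'⟩
  -- every point of `D` has a successor in `D`
  have hD : ∀ v ∈ D, ∃ y, M.rel v y ∧ y ∈ D := by
    rintro v ⟨_, _, hvU, hvU'⟩
    obtain ⟨a1, _, a3, a4⟩ := hU v hvU
    obtain ⟨b1, _, b3, b4⟩ := hU' v hvU'
    have hin : ∀ y, M.rel v y → M.val 3 y → M.val 4 y → y ∈ D := fun y hy h5 h6 =>
      ⟨h5, h6, (a1 y hy).resolve_left (not_not.2 h5), (b1 y hy).resolve_left (not_not.2 h6)⟩
    by_cases ho : M.val 0 v
    · obtain ⟨y, hy, hy4⟩ := b3.resolve_left fun h => h ho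
      have hy3 := a4.resolve_left (fun h => h ho) y hy
      exact ⟨y, hy, hin y hy hy3 hy4⟩
    · obtain ⟨y, hy, hy3⟩ := a3.resolve_left fun h => ho h
      have hy4 := b4.resolve_left (fun h => ho h) y hy
      exact ⟨y, hy, hin y hy hy3 hy4⟩
  have hA := (hU' w hwU').2.1.1
  refine hA Dᶜ ?_ hwD
  rintro v ⟨Z, hZ, hvZ⟩ hvD
  simp only [Fm.sem, Function.update_self, Function.update_of_ne (show (1 : ℕ) ≠ 2 by omega)]
    at hZ
  let D1 : Set M.W := {y | y ∈ D ∧ y ∈ Z}
  have hD1 : ∀ y ∈ D1, ¬ M.val 2 y ∧ ∀ t, M.rel y t → t ∈ D → t ∈ D1 := by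
    rintro y ⟨hyD, hyZ⟩
    rcases hZ hyZ with ⟨_, h5⟩ | ⟨h5, h6⟩
    · obtain ⟨t, ht, htD⟩ := hD y hyD
      rcases h5 t ht with h7 | h7
      · exact absurd htD.2.1 h7
      · exact absurd htD h7
    · refine ⟨h5, fun t ht htD => ⟨htD, ?_⟩⟩
      exact (h6 t ht).resolve_left (not_not.2 htD.2.1)
  have hR := (hU v hvD.2.2.1).2.1
  refine hR D1ᶜ ?_ ⟨hvD, hvZ⟩
  rintro y ⟨Z2, hZ2, hyZ2⟩ hyD1
  simp only [Fm.sem, Function.update_self, Function.update_of_ne (show (1 : ℕ) ≠ 2 by omega)]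
    at hZ2
  let D2 : Set M.W := {z | z ∈ D1 ∧ z ∈ Z2}
  have hD2 : ∀ z ∈ D2, ¬ M.val 2 z ∧ ¬ M.val 1 z ∧ ∃ t, M.rel z t ∧ t ∈ D2 := by
    rintro z ⟨hzD1, hzZ2⟩
    obtain ⟨t, ht, htD⟩ := hD z hzD1.1
    have htD1 := (hD1 z hzD1).2 t ht htD
    rcases hZ2 hzZ2 with h5 | ⟨_, h5⟩ | ⟨h5, h6⟩
    · exact absurd h5 (hD1 z hzD1).1
    · rcases h5 t ht with h7 | h7
      · exact absurd htD.1 h7
      · exact absurd htD1 h7
    · exact ⟨(hD1 z hzD1).1, h5, t, ht, htD1, (h6 t ht).resolve_left (not_not.2 htD.1)⟩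
  have hB := (hU' y hyD1.1.2.2.2).2.1.2
  refine hB D2ᶜ ?_ ⟨hyD1, hyZ2⟩
  intro z hz hzD2
  simp only [Fm.sem, Function.update_self] at hz
  obtain ⟨h5, h6, t, ht, htD2⟩ := hD2 z hzD2
  rcases hz with h7 | h7 | h7
  · exact h5 h7
  · exact h6 h7
  · rcases h7 t ht with h8 | h8
    · exact h8 htD2.1.1.2.1
    · exact h8 htD2

/-- The unravelled game with a labelling. -/
def um (c : AF) (T : Set (St × List St)) : Model.{0} where
  W := St × List St
  rel := ur (mv c)
  val := fun p x => (p < 3 ∧ (gm c).val p x.1) ∨ (3 ≤ p ∧ x ∈ T)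

theorem um_val0 (c : AF) (T : Set (St × List St)) (x : St × List St) :
    (um c T).val 0 x ↔ own x.1 := by simp [um, gm]

theorem um_val1 (c : AF) (T : Set (St × List St)) (x : St × List St) :
    (um c T).val 1 x ↔ prio x.1 = 2 := by simp [um, gm]

theorem um_val2 (c : AF) (T : Set (St × List St)) (x : St × List St) :
    (um c T).val 2 x ↔ prio x.1 = 3 := by simp [um, gm]

theorem um_val3 (c : AF) (T : Set (St × List St)) (x : St × List St) :
    (um c T).val 3 x ↔ x ∈ T := by simp [um, gm]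

theorem um_val4 (c : AF) (T : Set (St × List St)) (x : St × List St) :
    (um c T).val 4 x ↔ x ∈ T := by simp [um, gm]

theorem fR_holds (c : AF) (T : Set (St × List St)) (rk : St → Ordinal.{0})
    (x₀ : St × List St) (hx₀ : x₀ ∈ T)
    (h1 : ∀ x ∈ T, ¬ own x.1 → ∃ y, ur (mv c) x y ∧ y ∈ T)
    (h2 : ∀ x ∈ T, ¬ ¬ own x.1 → ∀ y, ur (mv c) x y → y ∈ T)
    (h3 : ∀ x ∈ T, ∀ y ∈ T, ur (mv c) x y → (prio x.1 = 2 → rk y.1 < rk x.1) ∧
      (prio x.1 ≠ 3 → rk y.1 ≤ rk x.1)) (V : ℕ → Set (um c T).W) :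
    x₀ ∈ fR.sem (um c T) V := by
  refine (sem_lab (um c T) _ _ _ _ V x₀).2 ?_
  refine ⟨(um_val3 c T x₀).2 hx₀, T, fun x hx => ⟨?_, ?_, ?_, ?_⟩, hx₀⟩
  · intro y _
    rw [um_val3]
    tauto
  · intro U hU
    have key : ∀ a : Ordinal.{0}, ∀ x ∈ T, rk x.1 ≤ a → x ∈ U := by
      intro a
      induction a using WellFoundedLT.induction with
      | ind a ih =>
        intro x hx hxa
        refine hU ⟨{y | y ∈ T ∧ rk y.1 ≤ a}, ?_, hx, hxa⟩
        rintro y ⟨hy, hya⟩
        simp only [Fm.sem, Function.update_self,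
          Function.update_of_ne (show (1 : ℕ) ≠ 2 by omega)]
        by_cases hp3 : prio y.1 = 3
        · exact Or.inl ((um_val2 c T y).2 hp3)
        by_cases hp2 : prio y.1 = 2
        · refine Or.inr (Or.inl ⟨(um_val1 c T y).2 hp2, fun z hz => ?_⟩)
          by_cases hzT : z ∈ T
          · right
            exact ih (rk z.1) (lt_of_lt_of_le ((h3 y hy z hzT hz).1 hp2) hya) z hzT le_rfl
          · left
            exact fun h => hzT ((um_val3 c T z).1 h)
        · refine Or.inr (Or.inr ⟨fun h => hp2 ((um_val1 c T y).1 h), fun z hz => ?_⟩)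
          by_cases hzT : z ∈ T
          · right
            exact ⟨hzT, ((h3 y hy z hzT hz).2 hp3).trans hya⟩
          · left
            exact fun h => hzT ((um_val3 c T z).1 h)
    exact key _ x hx le_rfl
  · by_cases ho : own x.1
    · exact Or.inl ((um_val0 c T x).2 ho)
    · obtain ⟨y, hy, hyT⟩ := h1 x hx ho
      exact Or.inr ⟨y, hy, (um_val3 c T y).2 hyT⟩
  · by_cases ho : own x.1
    · exact Or.inr fun y hy => (um_val3 c T y).2 (h2 x hx (not_not.2 ho) y hy)
    · exact Or.inl fun h => ho ((um_val0 c T x).1 h)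

theorem fV_holds (c : AF) (T : Set (St × List St)) (rk : St → Ordinal.{0})
    (rk' : Ordinal.{0} → St → Ordinal.{0}) (x₀ : St × List St) (hx₀ : x₀ ∈ T)
    (h1 : ∀ x ∈ T, own x.1 → ∃ y, ur (mv c) x y ∧ y ∈ T)
    (h2 : ∀ x ∈ T, ¬ own x.1 → ∀ y, ur (mv c) x y → y ∈ T)
    (h3 : ∀ x ∈ T, ∀ y ∈ T, ur (mv c) x y → (prio x.1 = 3 → rk y.1 < rk x.1) ∧
      rk y.1 ≤ rk x.1 ∧ (prio x.1 ≠ 3 → prio x.1 ≠ 2 → rk y.1 = rk x.1 →
        rk' (rk y.1) y.1 < rk' (rk x.1) x.1)) (V : ℕ → Set (um c T).W) :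
    x₀ ∈ fV.sem (um c T) V := by
  refine (sem_lab (um c T) _ _ _ _ V x₀).2 ?_
  refine ⟨(um_val4 c T x₀).2 hx₀, T, fun x hx => ⟨?_, ⟨?_, ?_⟩, ?_, ?_⟩, hx₀⟩
  · intro y _
    rw [um_val4]
    tauto
  · intro U hU
    have key : ∀ a : Ordinal.{0}, ∀ x ∈ T, rk x.1 ≤ a → x ∈ U := by
      intro a
      induction a using WellFoundedLT.induction with
      | ind a ih =>
        intro x hx hxa
        refine hU ⟨{y | y ∈ T ∧ rk y.1 ≤ a}, ?_, hx, hxa⟩
        rintro y ⟨hy, hya⟩
        simp only [Fm.sem, Function.update_self,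
          Function.update_of_ne (show (1 : ℕ) ≠ 2 by omega)]
        by_cases hp3 : prio y.1 = 3
        · refine Or.inl ⟨(um_val2 c T y).2 hp3, fun z hz => ?_⟩
          by_cases hzT : z ∈ T
          · right
            exact ih (rk z.1) (lt_of_lt_of_le ((h3 y hy z hzT hz).1 hp3) hya) z hzT le_rfl
          · left
            exact fun h => hzT ((um_val4 c T z).1 h)
        · refine Or.inr ⟨fun h => hp3 ((um_val2 c T y).1 h), fun z hz => ?_⟩
          by_cases hzT : z ∈ T
          · right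
            exact ⟨hzT, (h3 y hy z hzT hz).2.1.trans hya⟩
          · left
            exact fun h => hzT ((um_val4 c T z).1 h)
    exact key _ x hx le_rfl
  · intro U hU
    have key : ∀ a : Ordinal.{0}, ∀ b : Ordinal.{0}, ∀ x ∈ T, rk x.1 = a →
        rk' (rk x.1) x.1 = b → x ∈ U := by
      intro a
      induction a using WellFoundedLT.induction with
      | ind a iha =>
        intro b
        induction b using WellFoundedLT.induction with
        | ind b ihb =>
          intro x hx hxa hxb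
          apply hU
          simp only [Fm.sem, Function.update_self]
          by_cases hp3 : prio x.1 = 3
          · exact Or.inl ((um_val2 c T x).2 hp3)
          by_cases hp2 : prio x.1 = 2
          · exact Or.inr (Or.inl ((um_val1 c T x).2 hp2))
          · refine Or.inr (Or.inr fun z hz => ?_)
            by_cases hzT : z ∈ T
            · right
              obtain ⟨_, h5, h6⟩ := h3 x hx z hzT hz
              rcases lt_or_eq_of_le h5 with h7 | h7
              · exact iha (rk z.1) (hxa ▸ h7) _ z hzT rfl rfl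
              · exact ihb _ (hxb ▸ h6 hp3 hp2 h7) z hzT (h7.trans hxa) rfl
            · left
              exact fun h => hzT ((um_val4 c T z).1 h)
    exact key _ _ x hx rfl rfl
  · by_cases ho : own x.1
    · obtain ⟨y, hy, hyT⟩ := h1 x hx ho
      exact Or.inr ⟨y, hy, (um_val4 c T y).2 hyT⟩
    · exact Or.inl fun h => ho ((um_val0 c T x).1 h)
  · by_cases ho : own x.1
    · exact Or.inl ((um_val0 c T x).2 ho)
    · exact Or.inr fun y hy => (um_val4 c T y).2 (h2 x hx ho y hy)

/-! ### The classes of the formulas -/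

theorem thR_hier : Hier true 2 thR := by
  refine Hier.mu _ _ _ (Hier.up _ false _ _ (Hier.nu _ _ _ (Hier.up _ false _ _ ?_)))
  refine Hier.base _ _ ?_
  simp [Fm.FixFree]

theorem thA_hier : Hier true 2 thA := by
  refine Hier.mu _ _ _ (Hier.up _ false _ _ (Hier.nu _ _ _ (Hier.up _ false _ _ ?_)))
  refine Hier.base _ _ ?_
  simp [Fm.FixFree]

theorem thB_hier : Hier true 2 thB := by
  refine Hier.up _ true _ _ (Hier.mu _ _ _ (Hier.up _ false _ _ ?_))
  refine Hier.base _ _ ?_
  simp [Fm.FixFree]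

theorem fv_thR : thR.fv = ∅ := by
  ext y
  simp only [thR, Fm.fv, Set.mem_sdiff, Set.mem_union, Set.mem_singleton_iff,
    Set.mem_empty_iff_false]
  tauto

theorem fv_thA : thA.fv = ∅ := by
  ext y
  simp only [thA, Fm.fv, Set.mem_sdiff, Set.mem_union, Set.mem_singleton_iff,
    Set.mem_empty_iff_false]
  tauto

theorem fv_thB : thB.fv = ∅ := by
  ext y
  simp only [thB, Fm.fv, Set.mem_sdiff, Set.mem_union, Set.mem_singleton_iff,
    Set.mem_empty_iff_false]
  tauto

theorem lab_hier (l : ℕ) (mine other t : Fm) (hm : mine = .lit 0 ∨ mine = .nlit 0)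
    (ho : other = .lit 0 ∨ other = .nlit 0) (ht : Hier true 2 t) (hfv : t.fv = ∅) :
    Hier true 2 (lab l mine other t) := by
  refine Hier.conj _ _ _ _ ?_ ?_
  · exact Hier.up _ true _ _ (Hier.up _ true _ _ (Hier.base _ _ trivial))
  · have h1 : Hier true 2 (.nu 0 (.conj (.conj (.box (.disj (.nlit l) (.var 0))) (.var 9))
        (.conj (.disj other (.dia (.lit l))) (.disj mine (.box (.lit l)))))) := by
      refine Hier.up _ false _ _ (Hier.nu _ _ _ (Hier.up _ false _ _ (Hier.base _ _ ?_)))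
      rcases hm with rfl | rfl <;> rcases ho with rfl | rfl <;> simp [Fm.FixFree]
    have h2 := Hier.subst _ _ 9 _ t h1 ht ?_
    · have h3 : (Fm.nu 0 (.conj (.conj (.box (.disj (.nlit l) (.var 0))) (.var 9))
        (.conj (.disj other (.dia (.lit l))) (.disj mine (.box (.lit l)))))).subst 9 t =
          (Fm.nu 0 (.conj (.conj (.box (.disj (.nlit l) (.var 0))) t)
        (.conj (.disj other (.dia (.lit l))) (.disj mine (.box (.lit l)))))) := by
        rcases hm with rfl | rfl <;> rcases ho with rfl | rfl <;> simp [Fm.subst]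
      rw [h3] at h2
      exact h2
    · right; right
      refine ⟨by rw [hfv]; simp, ?_⟩
      rcases hm with rfl | rfl <;> rcases ho with rfl | rfl <;> simp [Fm.NoCapture]

theorem fR_hier : Hier true 2 fR :=
  lab_hier _ _ _ _ (Or.inr rfl) (Or.inl rfl) thR_hier fv_thR

theorem fV_hier : Hier true 2 fV :=
  lab_hier _ _ _ _ (Or.inl rfl) (Or.inr rfl) (Hier.conj _ _ _ _ thA_hier thB_hier)
    (by rw [Fm.fv, fv_thA, fv_thB]; simp)

theorem fv_fR : fR.fv = ∅ := by
  ext y
  simp only [fR, lab, Fm.fv, fv_thR, Set.mem_sdiff, Set.mem_union, Set.mem_singleton_iff,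
    Set.mem_empty_iff_false]
  tauto

theorem fv_fV : fV.fv = ∅ := by
  ext y
  simp only [fV, lab, Fm.fv, fv_thA, fv_thB, Set.mem_sdiff, Set.mem_union,
    Set.mem_singleton_iff, Set.mem_empty_iff_false]
  tauto

theorem letters_common : fR.letters ∩ fV.neg.letters ⊆ {0, 1, 2} := by
  rw [letters_neg]
  rintro p ⟨h1, h2⟩
  simp only [fR, fV, lab, thR, thA, thB, Fm.letters, Set.mem_union, Set.mem_singleton_iff,
    Set.mem_empty_iff_false, Set.mem_insert_iff] at h1 h2 ⊢
  by_cases h3 : p = 3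
  · subst h3; simp at h2
  · tauto

/-! ### The main result -/

/-- A model, moved to another universe. -/
def lift (M : Model.{0}) : Model.{u} where
  W := ULift.{u} M.W
  rel := fun x y => M.rel x.down y.down
  val := fun p x => M.val p x.down

theorem sem_lift (M : Model.{0}) (a : Fm) (V : ℕ → Set M.W) (x : M.W) :
    (⟨x⟩ : ULift.{u} M.W) ∈ a.sem (lift.{u} M) (fun y => ULift.down ⁻¹' V y) ↔
      x ∈ a.sem M V := by
  have := sem_morph (M := M) (M' := lift.{u} M) ULift.down Set.univ (fun _ _ _ => Iff.rfl)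
    (fun _ _ h => h) (fun x t h => ⟨⟨t⟩, h, rfl⟩) a (Set.subset_univ _) V
  rw [this]
  exact Iff.rfl

theorem sem_um (c : AF) (T : Set (St × List St)) (a : Fm) (ha : a.letters ⊆ {0, 1, 2})
    (V : ℕ → Set St) (x : St × List St) :
    x ∈ a.sem (um c T) (fun y => Prod.fst ⁻¹' V y) ↔ x.1 ∈ a.sem (gm c) V := by
  have := sem_morph (M := gm c) (M' := um c T) Prod.fst {0, 1, 2} (fun p hp x => ?_)
    (fun _ _ h => h.1) (fun x t h => ⟨(t, x.1 :: x.2), ⟨h, rfl⟩, rfl⟩) a ha V
  · exact iff_of_eq (congrArg (fun Z : Set (um c T).W => Z x) this)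
  · have hp' : p < 3 := by
      simp only [Set.mem_insert_iff, Set.mem_singleton_iff] at hp
      omega
    have hp'' : ¬ 3 ≤ p := by omega
    simp only [um, hp', hp'', true_and, false_and, or_false]

theorem validImp_neg {a b : Fm} (h : ValidImp.{u} a b) : ValidImp.{u} b.neg a.neg := by
  intro M V x hx
  rw [sem_neg] at hx ⊢
  exact fun hxa => hx (h M _ hxa)

theorem no_interpolant (χ : Fm) (h3 : Hier true 3 χ) (hl : χ.letters ⊆ {0, 1, 2})
    (h1 : ValidImp.{u} fR χ) (h2 : ValidImp.{u} χ fV.neg) : False := by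
  obtain ⟨c, hc, hOK⟩ := exists_ranked h3 3 le_rfl (by simp)
  have hOK3 := hOK (fun _ => 3) (fun _ _ => le_rfl)
  let V0 : ℕ → Set St := fun _ => ∅
  by_cases hr : St.root ∈ χ.sem (gm c) V0
  · have hw : St.root ∈ Wn (mv c) prio own := by
      have h4 := truth_win c c (fun _ => 3) [] V0 ∅ hOK3
        (fun y _ => ⟨fun w hw => hw.elim, fun _ w hw => hw.elim⟩) .root (by rw [hc]; exact hr)
      rw [Gn_empty] at h4
      rw [← Wn_eq, stp_one (u := .pos .root c []) (fun t => Iff.rfl)]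
      exact h4
    obtain ⟨rk, rk', hm⟩ := exists_measure_W (mv c) prio own
    obtain ⟨T, hT0, hT1, hT2, hT3⟩ := exists_label (mv c) own (Wn (mv c) prio own)
      (fun v u => u ∈ Wn (mv c) prio own ∧ (prio v = 3 → rk u < rk v) ∧ rk u ≤ rk v ∧
        (prio v ≠ 3 → prio v ≠ 2 → rk u = rk v → rk' (rk u) u < rk' (rk v) v))
      (fun v u h => h.1) hm .root hw
    have h5 := (sem_lift.{u} (um c T) χ _ (St.root, [])).2 ((sem_um c T χ hl V0 (St.root, [])).2 hr)
    have h6 := (sem_lift.{u} (um c T) fV.neg _ (St.root, [])).1 (h2 _ _ h5)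
    rw [sem_neg] at h6
    exact h6 (fV_holds c T rk rk' (St.root, []) hT0 hT1 hT2
      (fun x hx y hy hxy => (hT3 x hx y hy hxy).2) _)
  · have hw : St.root ∈ Qn (mv c) prio (fun v => ¬ own v) ∅ := by
      have hvar : ∀ (X1 X2 X3 : Set St) (y : ℕ) (w : St),
          St.pos w (.var y) [] ∈ stp (mv c) prio (fun v => ¬ own v) X1 X2 X3 := by
        intro X1 X2 X3 y w
        refine Or.inr ⟨not_not.2 trivial, fun u hu => ?_⟩
        obtain ⟨k, b, e', h, _⟩ := hu
        simp [look] at h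
      have h4 := false_win c c (fun _ => 3) [] V0 ∅ ∅ hOK3
        (fun y _ => ⟨fun w _ => by rw [← Rn_eq]; exact hvar _ _ _ y w,
          fun _ w _ => by rw [← Qn_eq]; exact hvar _ _ _ y w⟩) .root (by rw [hc]; exact hr)
      rw [Rn_empty] at h4
      rw [← Qn_eq, stp_one (u := .pos .root c []) (fun t => Iff.rfl)]
      exact h4
    obtain ⟨rk, hm⟩ := exists_measure_Q (mv c) prio (fun v => ¬ own v)
    obtain ⟨T, hT0, hT1, hT2, hT3⟩ := exists_label (mv c) (fun v => ¬ own v)
      (Qn (mv c) prio (fun v => ¬ own v) ∅)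
      (fun v u => u ∈ Qn (mv c) prio (fun v => ¬ own v) ∅ ∧ (prio v = 2 → rk u < rk v) ∧
        (prio v ≠ 3 → rk u ≤ rk v))
      (fun v u h => h.1) hm .root hw
    have h5 := fR_holds c T rk (St.root, []) hT0 hT1 hT2
      (fun x hx y hy hxy => (hT3 x hx y hy hxy).2) (fun y => Prod.fst ⁻¹' V0 y)
    have h6 := h1 _ _ ((sem_lift.{u} (um c T) fR _ (St.root, [])).2 h5)
    have h7 := (sem_um c T χ hl V0 (St.root, [])).1 ((sem_lift.{u} (um c T) χ _ (St.root, [])).1 h6)
    exact hr h7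

/-- **Main result.** Neither `Σ_3` nor `Π_3` has Craig interpolation: for each of the two classes
there are closed formulas `φ` in `Σ_2` and `ψ` in `Π_2` (which both belong to the class), with
`φ → ψ` valid, such that no formula of the class over the common letters is an interpolant. -/
theorem result : ∀ b : Bool, ∃ φ ψ : Fm, Hier true 2 φ ∧ Hier false 2 ψ ∧
    Hier b 3 φ ∧ Hier b 3 ψ ∧ φ.fv = ∅ ∧ ψ.fv = ∅ ∧ ValidImp.{u} φ ψ ∧
    ¬ ∃ χ : Fm, Hier b 3 χ ∧ χ.letters ⊆ φ.letters ∩ ψ.letters ∧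
      ValidImp.{u} φ χ ∧ ValidImp.{u} χ ψ := by
  intro b
  cases b with
  | true =>
    refine ⟨fR, fV.neg, fR_hier, hier_neg fV_hier, Hier.up _ _ _ _ fR_hier,
      Hier.up _ _ _ _ (hier_neg fV_hier), fv_fR, by rw [fv_neg, fv_fV], ?_, ?_⟩
    · intro M V w hw
      rw [sem_neg]
      exact fun h => incompatible M V _ w hw h
    · rintro ⟨χ, h1, h2, h3, h4⟩
      exact no_interpolant χ h1 (h2.trans letters_common) h3 h4
  | false =>
    refine ⟨fV, fR.neg, fV_hier, hier_neg fR_hier, Hier.up _ _ _ _ fV_hier,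
      Hier.up _ _ _ _ (hier_neg fR_hier), fv_fV, by rw [fv_neg, fv_fR], ?_, ?_⟩
    · intro M V w hw
      rw [sem_neg]
      exact fun h => incompatible M _ V w h hw
    · rintro ⟨χ, h1, h2, h3, h4⟩
      refine no_interpolant χ.neg (hier_neg h1) ?_ ?_ (validImp_neg h3)
      · rw [letters_neg]
        refine h2.trans (Set.Subset.trans ?_ letters_common)
        rw [letters_neg, letters_neg, Set.inter_comm]
      · have := validImp_neg h4
        rwa [neg_neg] at this

end Pool.Agent.Results.MP_3aa27d_lc.LevelThreeFails
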